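import Pool.Agent.U980.HS.Gen

/-!
# Denominators of the coefficients of the hypergeometric system with arbitrary rational exponents
-/

set_option autoImplicit false

open PowerSeries

namespace Pool.Agent.U980.HS

open Pool.Agent.Y119.HY (QD Am Jm cm cm_apply aq hq hps kx SL SL_coeff SL_C SL_X poch_int uq uq_eq sdc_of Hc Hq Ac_nil E Hf)
open Pool.Agent.Y119.HZ (Hp hf)

/-- the polynomial with roots `β_i` -/
noncomputable def QR {n : ℕ} (β : Fin n → ℚ) : Polynomial ℚ := ∏ i, (Polynomial.X - Polynomial.C (β i))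

lemma aq_QR {n : ℕ} (β : Fin n → ℚ) (k : ℕ) : aq n (QR β) k = ∏ i, uq (-β i) k := by
  unfold aq uq QR
  rw [Finset.prod_comm]
  refine Finset.prod_congr rfl fun l _ => ?_
  rw [map_prod, Finset.prod_mul_distrib, Finset.prod_const, Finset.card_univ, Fintype.card_fin]
  congr 1
  refine Finset.prod_congr rfl fun i _ => ?_
  rw [map_sub, Polynomial.aeval_X, Polynomial.aeval_C]
  have h2 : algebraMap ℚ ℚ⟦X⟧ (β i) = C (β i) := rfl
  rw [h2, map_add, map_neg]
  unfold kx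
  ring

/-- the denominators -/
lemma hq_den {n : ℕ} {β : Fin n → ℚ} (hβ : ∀ i, ∀ l : ℕ, (l : ℚ) + -β i ≠ 0) :
    ∃ A : ℝ, ∀ K, ∃ d : ℕ, 0 < d ∧ (d : ℝ) ≤ A ^ (K + 1) ∧ ∀ k ≤ K, ∀ i j : ℕ, j < n →
      ∃ a : ℤ, (d : ℚ) * hq n (QR β) k i j = a := by
  set Bd : ℕ := 1 + ∑ i, ((β i).den + (β i).num.natAbs) with hBd
  have hBi : ∀ i, (β i).den + (β i).num.natAbs + 1 ≤ Bd := by
    intro i
    have := Finset.single_le_sum (f := fun i => (β i).den + (β i).num.natAbs) (fun _ _ => Nat.zero_le _) (Finset.mem_univ i)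
    omega
  set M : ℕ := ∏ i, (β i).den ^ 2 with hM
  have hM1 : 1 ≤ M := by
    rw [hM]
    refine Nat.succ_le_of_lt (Finset.prod_pos fun i _ => ?_)
    have := (β i).den_pos
    positivity
  refine ⟨(M : ℝ) * ((2 ^ 8) ^ Bd) ^ n, fun K => ?_⟩
  set L : ℕ := Nat.lcmUpto (K * Bd + Bd) with hL
  have hL0 : 0 < L := Nat.lcmUpto_pos _
  have hLd : ∀ γ : ℚ, γ.den + γ.num.natAbs + 1 ≤ Bd → ∀ i : ℕ, 1 ≤ i → i ≤ K * γ.den + γ.num.natAbs + K → i ∣ L := by
    intro γ hγ i h1 h2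
    refine Pool.Agent.Y113.dvd_lcmUpto h1 (h2.trans ?_)
    have h3 : K * (γ.den + 1) ≤ K * Bd := Nat.mul_le_mul_left _ (by omega)
    rw [mul_add, mul_one] at h3
    omega
  refine ⟨M ^ K * L ^ n, by positivity, ?_, fun k hk i j hj => ?_⟩
  · push_cast
    have h1 : (L : ℝ) ≤ (2 ^ 8) ^ (K * Bd + Bd) := Pool.Agent.Y113.lcm_bound _
    have hM1' : (1 : ℝ) ≤ M := by exact_mod_cast hM1
    calc (M : ℝ) ^ K * (L : ℝ) ^ n ≤ (M : ℝ) ^ (K + 1) * ((2 ^ 8) ^ (K * Bd + Bd)) ^ n :=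
          mul_le_mul (pow_le_pow_right₀ hM1' (Nat.le_succ K)) (pow_le_pow_left₀ (by positivity) h1 _) (by positivity)
            (by positivity)
      _ = _ := by
          rw [mul_pow]
          congr 1
          generalize ((2 : ℝ) ^ 8) = B
          rw [← pow_mul, ← pow_mul, ← pow_mul]
          congr 1
          ring
  · -- the factors
    have hm2 : ∀ i, ∃ w ∈ SL L, uq (-β i) k = C (∏ l ∈ Finset.range k, (((l : ℚ) + -β i) / ((l : ℚ) + 1))) * w := fun i =>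
      uq_eq (hβ i) hk (hLd _ (by
        rw [Rat.neg_den, Rat.neg_num, Int.natAbs_neg]
        exact hBi i))
    choose w2 hw2 hw2' using hm2
    set c : ℚ := ∏ i, (∏ l ∈ Finset.range k, (((l : ℚ) + -β i) / ((l : ℚ) + 1))) with hc
    have haq : aq n (QR β) k = C c * ∏ i, w2 i := by
      rw [aq_QR, hc, map_prod, ← Finset.prod_mul_distrib]
      exact Finset.prod_congr rfl fun i _ => hw2' i
    have hcM : ∃ a : ℤ, ((M : ℚ) ^ k) * c = a := by
      choose b hb using fun i => poch_int (-β i) k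
      refine ⟨∏ i, b i, ?_⟩
      rw [hc, hM]
      push_cast
      rw [← Finset.prod_pow, ← Finset.prod_mul_distrib]
      refine Finset.prod_congr rfl fun i _ => ?_
      rw [← hb i, Rat.neg_den]
    obtain ⟨a, ha⟩ := hcM
    have hmem : kx k ^ i * ∏ i, w2 i ∈ SL L := by
      refine (SL L).mul_mem ((SL L).pow_mem ((SL L).add_mem ?_ (SL_X L)) _)
        ((SL L).prod_mem fun i _ => hw2 i)
      have := SL_C L (k : ℤ)
      exact_mod_cast this
    obtain ⟨b, hb⟩ := SL_coeff hmem j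
    refine ⟨(M : ℤ) ^ (K - k) * a * ((L : ℤ) ^ (n - j) * b), ?_⟩
    unfold hq
    rw [haq, show kx k ^ i * (C c * ∏ i, w2 i) = C c * (kx k ^ i * ∏ i, w2 i) by ring,
      PowerSeries.coeff_C_mul]
    push_cast
    rw [← ha, ← hb]
    have e1 : (M : ℚ) ^ K = (M : ℚ) ^ (K - k) * (M : ℚ) ^ k := by rw [← pow_add]; congr 1; omega
    have e2 : (L : ℚ) ^ n = (L : ℚ) ^ (n - j) * (L : ℚ) ^ j := by rw [← pow_add]; congr 1; omega
    rw [e1, e2]
    ring

open Pool.Agent.Y113 in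
theorem sdc_hps {n : ℕ} {β : Fin n → ℚ} (hβ : ∀ i, ∀ l : ℕ, (l : ℚ) + -β i ≠ 0)
    (hQ : QM n (QR β)) (i j : Fin n) : SDc (hps n (QR β) i j) := by
  refine sdc_of ?_ ?_
  · obtain ⟨A, hA⟩ := ((sol_c hQ).growth Ac_nil i j).exp
    refine ⟨A, fun k => ?_⟩
    have h1 := hA k
    unfold Hc at h1
    rw [cm_apply] at h1
    unfold hps
    rw [PowerSeries.coeff_mk]
    refine le_trans (le_of_eq ?_) h1
    have e1 : ((Hq n (QR β) k i j : ℚ) : ℂ) = (((Hq n (QR β) k i j : ℚ) : ℝ) : ℂ) := by push_cast; rfl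
    rw [e1, Complex.norm_real, Real.norm_eq_abs]
    rfl
  · obtain ⟨A, hA⟩ := hq_den hβ
    refine ⟨A, fun K => ?_⟩
    obtain ⟨d, hd0, hd, hd'⟩ := hA K
    refine ⟨d, hd0, hd, fun k hk => ?_⟩
    unfold hps
    rw [PowerSeries.coeff_mk]
    exact hd' k hk i j j.2

/-! ### the polynomial -/

variable {n : ℕ} {β : Fin n → ℚ}

lemma QR_monic : (QR β).Monic := Polynomial.monic_prod_of_monic _ _ fun i _ => Polynomial.monic_X_sub_C _

lemma QR_deg : (QR β).natDegree = n := by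
  unfold QR
  rw [Polynomial.natDegree_prod_of_monic _ _ fun i _ => Polynomial.monic_X_sub_C _]
  simp

lemma QR_eval (x : ℚ) : (QR β).eval x = ∏ i, (x - β i) := by
  unfold QR
  rw [Polynomial.eval_prod]
  simp

lemma QR_ne (hβ : ∀ i, ∀ a : ℤ, β i ≠ a) (a : ℤ) : (QR β).eval (a : ℚ) ≠ 0 := by
  rw [QR_eval]
  exact Finset.prod_ne_zero_iff.2 fun i _ h => hβ i a (sub_eq_zero.1 h).symm

lemma QR_coeff (hn : 0 < n) : (QR β).coeff (n - 1) = -∑ i, β i := by
  have h1 := Polynomial.prod_X_sub_C_coeff_card_pred (Finset.univ : Finset (Fin n)) β (by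
    rw [Finset.card_univ, Fintype.card_fin]
    exact hn)
  rw [Finset.card_univ, Fintype.card_fin] at h1
  exact h1

lemma QM_QR (hn : 2 ≤ n) (hβ : ∀ i, ∀ a : ℤ, β i ≠ a) : QM n (QR β) :=
  ⟨hn, QR_monic, QR_deg, fun l => by exact_mod_cast QR_ne hβ (l : ℤ)⟩

/-- odd order -/
lemma QG_QR (hodd : Odd n) (hsum : ∑ i, β i = 0) (hβ : ∀ i, ∀ a : ℤ, β i ≠ a) : QG n (QR β) := by
  have hn : 2 ≤ n := by
    rcases hodd with ⟨k, hk⟩
    rcases Nat.eq_zero_or_pos k with h0 | h0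
    · exfalso
      have h1 : n = 1 := by omega
      subst h1
      rw [Fin.sum_univ_one] at hsum
      exact hβ 0 0 (by rw [hsum]; simp)
    · omega
  refine ⟨QM_QR hn hβ, hodd, ?_, fun l => ?_⟩
  · rw [QR_coeff (by omega), hsum, neg_zero]
  · have h1 := QR_ne hβ (-(l : ℤ))
    push_cast at h1
    exact h1

/-- even order -/
lemma QD_QR (hn : 1 ≤ n) (he : Even n) (hsym : ∃ σ : Equiv.Perm (Fin n), ∀ j, β (σ j) = -β j)
    (hβ : ∀ i, ∀ a : ℤ, β i ≠ a) : QD n (QR β) := by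
  have hn2 : 2 ≤ n := by
    obtain ⟨a, ha⟩ := he
    omega
  refine ⟨hn2, he, QR_monic, QR_deg, fun j hj => ?_, fun l => by exact_mod_cast QR_ne hβ (l : ℤ)⟩
  obtain ⟨σ, hσ⟩ := hsym
  have h1 : (QR β).comp (Polynomial.C (-1) * Polynomial.X) = QR β := by
    unfold QR
    rw [Polynomial.prod_comp]
    have h2 : ∀ i, (Polynomial.X - Polynomial.C (β i)).comp (Polynomial.C (-1) * Polynomial.X) =
        (-1) * (Polynomial.X - Polynomial.C (β (σ i))) := by
      intro i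
      rw [hσ, Polynomial.sub_comp, Polynomial.X_comp, Polynomial.C_comp]
      simp only [map_neg, map_one]
      ring
    simp only [h2]
    rw [Finset.prod_mul_distrib, Finset.prod_const, Finset.card_univ, Fintype.card_fin, he.neg_one_pow, one_mul]
    exact Equiv.prod_comp σ fun i => Polynomial.X - Polynomial.C (β i)
  have h3 := congrArg (fun q => Polynomial.coeff q j) h1
  simp only [Polynomial.comp_C_mul_X_coeff] at h3
  rw [hj.neg_one_pow] at h3
  linear_combination (-1 / 2 : ℚ) * h3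

lemma QM_of_QD {Q : Polynomial ℚ} (hQ : QD n Q) : QM n Q := ⟨hQ.two, hQ.monic, hQ.deg, hQ.ne⟩

/-! ### the data of the families -/

open Pool.Agent.Y119.HZ (ix)

lemma unif_of {Q : Polynomial ℚ} (hH : ∀ i j, Pool.Agent.Y113.SDc (Hp n Q i j)) :
    ∃ C : ℝ, ∀ j m, |((coeff m (hf n Q j) : ℚ) : ℝ)| ≤ C ^ (m + 1) := by
  obtain ⟨C₁, -, hs, -⟩ := Pool.Agent.Y119.HY.SDc.unif (y := fun p : Fin n × Fin n => Hp n Q p.1 p.2) fun p => hH p.1 p.2
  exact ⟨C₁, fun j m => hs (ix n j) m⟩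

lemma E_det (s : ℂ) : (E (cm (Am n)) s).det = 1 := by
  rw [Matrix.det_of_isUpperTriangular]
  · refine Finset.prod_eq_one fun i _ => ?_
    unfold E
    rw [Matrix.sum_apply, Finset.sum_eq_single 0]
    · simp
    · intro l _ hl
      rw [Matrix.smul_apply, ← Pool.Agent.Y119.HY.cm_pow, cm_apply, Pool.Agent.Y119.HY.Am_pow, if_neg (by omega)]
      simp
    · intro h
      exact absurd (Finset.mem_range.2 (lt_of_le_of_lt (Nat.zero_le _) i.2)) h
  · intro i j hij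
    have hij' : (j : ℕ) < i := hij
    unfold E
    rw [Matrix.sum_apply]
    refine Finset.sum_eq_zero fun l _ => ?_
    rw [Matrix.smul_apply, ← Pool.Agent.Y119.HY.cm_pow, cm_apply, Pool.Agent.Y119.HY.Am_pow, if_neg (by omega)]
    simp

/-- **odd order** -/
theorem FM_sl {Q : Polynomial ℚ} (hQ : QG n Q) (hH : ∀ i j, Pool.Agent.Y113.SDc (Hp n Q i j)) :
    FM n Q {g | g.det = 1} where
  fam := fun δ => hfam_hf hQ.toQM hQ.tr hH δ
  unif := unif_of hH
  inv := fun R hR x hx hx1 κ hκ => by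
    refine rel_inv hQ.toQM hR hx hx1 (hyp_invar' hQ _ ?_)
    rw [Matrix.det_mul, Matrix.det_mul, E_det, E_det, one_mul, mul_one]
    exact hκ
  left := fun x hx hx1 => by
    have hd := det_Hf hQ.toQM hQ.tr hx hx1
    refine ⟨(Hf (Hc n Q) (x : ℂ)).adjugate, ?_, fun g hg s => ?_⟩
    · rw [Matrix.mul_adjugate, hd, one_smul]
    · have h1 : ((Hf (Hc n Q) (x : ℂ)).adjugate).det = 1 := by
        rw [Matrix.det_adjugate, hd, one_pow]
      show (_ * g * _).det = 1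
      rw [Matrix.det_mul, Matrix.det_mul, h1, E_det, one_mul, mul_one]
      exact hg

open Pool.Agent.Y119.HY (Jc_det Jc_rel E_isom E_mul_neg) in
/-- **even order** -/
theorem FM_sp {Q : Polynomial ℚ} (hQ : QD n Q) (hH : ∀ i j, Pool.Agent.Y113.SDc (Hp n Q i j)) :
    FM n Q {g | g.det = 1 ∧ g.transpose * cm (Jm n Q) * g = cm (Jm n Q)} where
  fam := fun δ => Pool.Agent.Y119.HZ.hfam_hf hQ hH δ
  unif := unif_of hH
  inv := fun R hR x hx hx1 κ hκ => Pool.Agent.Y119.HZ.rel_inv hQ hR hx hx1 hκ.2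
  left := fun x hx hx1 => by
    have htr : Q.coeff (n - 1) = 0 := by
      refine hQ.sym _ ?_
      obtain ⟨a, ha⟩ := hQ.even
      have := hQ.two
      exact ⟨a - 1, by omega⟩
    have hd := det_Hf (QM_of_QD hQ) htr hx hx1
    have hN : (cm (Am n)) ^ n = 0 := Ac_nil
    -- the holomorphic part is an isometry
    have hY := Pool.Agent.Y119.HY.self_pair (N1 := cm (Pool.Agent.Y119.HY.Bm n Q)) hN (Jc_rel (Q := Q)) (by
      rw [← Pool.Agent.Y119.HY.cm_transpose, ← Pool.Agent.Y119.HY.cm_mul, ← Pool.Agent.Y119.HY.cm_mul,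
        ← Pool.Agent.Y119.HY.cm_add, Pool.Agent.Y119.HZ.Bm_rel hQ, Pool.Agent.Y119.HY.cm_zero])
      (Pool.Agent.Y119.HY.sol_c hQ) (Pool.Agent.Y119.HY.real_mem_Lens hx hx1)
    have hHf : (Hf (Hc n Q) (x : ℂ)).transpose * cm (Jm n Q) * Hf (Hc n Q) (x : ℂ) = cm (Jm n Q) := by
      have h1 := Pool.Agent.Y119.HZ.isom_mul hY (E_isom hN Jc_rel (-Complex.log x))
      have h2 : Pool.Agent.Y119.HY.Yf (cm (Am n)) (Hc n Q) (x : ℂ) * E (cm (Am n)) (-Complex.log x) =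
          Hf (Hc n Q) (x : ℂ) := by
        unfold Pool.Agent.Y119.HY.Yf
        rw [Matrix.mul_assoc, E_mul_neg hN, mul_one]
      rwa [h2] at h1
    obtain ⟨W, hW1, hW2, hW3⟩ := Pool.Agent.Y119.HZ.isom_inv (Jc_det hQ) hHf
    refine ⟨W, hW1, fun g hg s => ⟨?_, ?_⟩⟩
    · have h1 : W.det = 1 := by
        have := congrArg Matrix.det hW1
        rwa [Matrix.det_mul, hd, one_mul, Matrix.det_one] at this
      rw [Matrix.det_mul, Matrix.det_mul, h1, E_det, one_mul, mul_one]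
      exact hg.1
    · exact Pool.Agent.Y119.HZ.isom_mul (Pool.Agent.Y119.HZ.isom_mul hW3 hg.2) (E_isom hN Jc_rel s)

end Pool.Agent.U980.HS
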