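import Pool.Agent.U980.HS.Grp
import Pool.Agent.Y119.HY.Main

/-!
# Systems with a regular unipotent monodromy at `0` and a transvection at `1`, odd order: all relations are invariant under
the special linear group
-/

set_option autoImplicit false

open Filter Topology Matrix Polynomial

namespace Pool.Agent.U980.HS

open Pool.Agent.Y119.HY (E E_add E_zero E_mul_neg E_neg Ep Ep_eval Sol exists_sol HD Hf Hf_zero Hf_an Yf Gm Yf_ode PA
  map_mul_eval map_C_eval Lens mem_Lens real_mem_Lens symm_Lens slit_Lens const_Lens Gal Gal_closed conj_E conj_mem_Gal E_fix)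

variable {n : ℕ}

/-- the pairing of a solution with a solution of the dual system is constant -/
lemma pair_HD' {J G G' : Matrix (Fin n) (Fin n) ℂ} (hG : G.transpose * J + J * G' = 0)
    {Y Z : ℂ → Matrix (Fin n) (Fin n) ℂ} {z : ℂ} (hY : HD Y (G * Y z) z) (hZ : HD Z (G' * Z z) z) :
    HD (fun w => (Y w).transpose * J * Z w) 0 z := by
  refine ((hY.transpose.mul (HD.const J z)).mul hZ).congr ?_
  rw [mul_zero, add_zero, transpose_mul]
  have h1 : G.transpose * J = -(J * G') := eq_neg_of_add_eq_zero_left hG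
  calc (Y z).transpose * G.transpose * J * Z z + (Y z).transpose * J * (G' * Z z)
      = (Y z).transpose * (G.transpose * J) * Z z + (Y z).transpose * (J * G') * Z z := by
        simp only [Matrix.mul_assoc]
    _ = 0 := by rw [h1]; simp

lemma Gm_dual {J N0 N1 N0' N1' : Matrix (Fin n) (Fin n) ℂ} (h0 : N0.transpose * J + J * N0' = 0)
    (h1 : N1.transpose * J + J * N1' = 0) (z : ℂ) : (Gm N0 N1 z).transpose * J + J * Gm N0' N1' z = 0 := by
  unfold Gm
  rw [transpose_add, transpose_smul, transpose_smul, add_mul, smul_mul_assoc, smul_mul_assoc, mul_add, mul_smul_comm,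
    mul_smul_comm]
  have e0 : N0.transpose * J = -(J * N0') := eq_neg_of_add_eq_zero_left h0
  have e1 : N1.transpose * J = -(J * N1') := eq_neg_of_add_eq_zero_left h1
  rw [e0, e1]
  simp only [smul_neg]
  abel

/-- **the pairing of a fundamental matrix with the fundamental matrix of the dual system** -/
theorem pair_one {J N0 N1 N0' N1' : Matrix (Fin n) (Fin n) ℂ} {H H' : ℕ → Matrix (Fin n) (Fin n) ℂ} (h0 : N0 ^ n = 0)
    (h0' : N0' ^ n = 0) (hs0 : N0.transpose * J + J * N0' = 0) (hs1 : N1.transpose * J + J * N1' = 0)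
    (hH : Sol N0 N1 H) (hH' : Sol N0' N1' H') {z : ℂ} (hz : z ∈ Lens) :
    (Yf N0 H z).transpose * J * Yf N0' H' z = J := by
  have hhalf : ((1 / 2 : ℝ) : ℂ) ∈ Lens := real_mem_Lens (by norm_num) (by norm_num)
  set S := (Yf N0 H ((1 / 2 : ℝ) : ℂ)).transpose * J * Yf N0' H' ((1 / 2 : ℝ) : ℂ) with hS
  have hconst : ∀ w ∈ Lens, (Yf N0 H w).transpose * J * Yf N0' H' w = S := by
    intro w hw
    refine const_Lens (F := fun w => (Yf N0 H w).transpose * J * Yf N0' H' w) (fun x hx => ?_) hw hhalf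
    exact pair_HD' (Gm_dual hs0 hs1 x) (Yf_ode hH h0 (mem_Lens.1 hx).1 (slit_Lens hx))
      (Yf_ode hH' h0' (mem_Lens.1 hx).1 (slit_Lens hx))
  rw [hconst z hz]
  -- the holomorphic part
  have hHan : ∀ i j, AnalyticOnNhd ℂ (fun z => ((Hf H z).transpose * J * Hf H' z) i j) (Metric.ball 0 1) := by
    intro i j
    simp only [Matrix.mul_apply, Matrix.transpose_apply]
    refine Finset.analyticOnNhd_fun_sum _ fun l _ => AnalyticOnNhd.mul ?_ (Hf_an hH' h0' l j)
    refine Finset.analyticOnNhd_fun_sum _ fun k _ => ?_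
    exact (Hf_an hH h0 k i).mul analyticOnNhd_const
  have hlog : ∀ i j : Fin n, ∀ w ∈ Metric.ball (0 : ℂ) 1, C (((Hf H w).transpose * J * Hf H' w) i j) +
      -(((Ep (-N0)).transpose * S.map C * Ep (-N0')) i j) = 0 := by
    intro i j
    refine PA.log_zero (f := fun w => C (((Hf H w).transpose * J * Hf H' w) i j) +
      -(((Ep (-N0)).transpose * S.map C * Ep (-N0')) i j)) ((PA.ofFun (hHan i j)).add (PA.const _)) fun x hx hx1 => ?_
    have h1 := hconst x (real_mem_Lens hx hx1)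
    have h2 : ((Ep (-N0)).transpose * S.map C * Ep (-N0')).map (Polynomial.eval ((Real.log x : ℝ) : ℂ)) =
        (Hf H x).transpose * J * Hf H' x := by
      rw [map_mul_eval, map_mul_eval, Matrix.transpose_map, map_C_eval, Ep_eval, Ep_eval, E_neg, E_neg, ← h1]
      unfold Yf
      rw [← Complex.ofReal_log hx.le, transpose_mul]
      set L : ℂ := ((Real.log x : ℝ) : ℂ)
      have h3 : E N0 L * E N0 (-L) = 1 := E_mul_neg h0 L
      have h3' : E N0' L * E N0' (-L) = 1 := E_mul_neg h0' L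
      have h4 : (E N0 (-L)).transpose * (E N0 L).transpose = 1 := by
        rw [← transpose_mul, h3, transpose_one]
      calc (E N0 (-L)).transpose * ((E N0 L).transpose * (Hf H x).transpose * J * (Hf H' x * E N0' L)) * E N0' (-L)
          = ((E N0 (-L)).transpose * (E N0 L).transpose) * (Hf H x).transpose * J * Hf H' x * (E N0' L * E N0' (-L)) := by
            simp only [Matrix.mul_assoc]
        _ = _ := by rw [h3', h4, one_mul, mul_one]
    rw [eval_add, eval_neg, eval_C, ← h2]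
    simp only [Matrix.map_apply]
    ring
  have hz0 : (-N0) ^ n = 0 := by rw [neg_pow, h0, mul_zero]
  have hz0' : (-N0') ^ n = 0 := by rw [neg_pow, h0', mul_zero]
  ext i j
  have h5 := congrArg (Polynomial.eval 0) (hlog i j 0 (Metric.mem_ball_self one_pos))
  rw [eval_add, eval_neg, eval_C, Hf_zero hH, Hf_zero hH', transpose_one, one_mul, mul_one, eval_zero] at h5
  have h6 : ((Ep (-N0)).transpose * S.map C * Ep (-N0')).map (Polynomial.eval 0) = S := by
    rw [map_mul_eval, map_mul_eval, Matrix.transpose_map, map_C_eval, Ep_eval, Ep_eval, E_zero hz0, E_zero hz0',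
      transpose_one, one_mul, mul_one]
  have h7 := congrFun (congrFun h6 i) j
  rw [Matrix.map_apply] at h7
  rw [h7] at h5
  linear_combination -h5

/-- **Connection.** -/
theorem connect' {A B : Matrix (Fin n) (Fin n) ℂ} {H K Ks : ℕ → Matrix (Fin n) (Fin n) ℂ} (hA : A ^ n = 0)
    (hB : (-B) ^ n = 0) (hH : Sol A B H) (hK : Sol (-B) (-A) K) (hKs : Sol B.transpose A.transpose Ks) :
    ∃ M Mi : Matrix (Fin n) (Fin n) ℂ, M * Mi = 1 ∧ Mi * M = 1 ∧ (∀ z ∈ Lens, Yf A H z = Yf (-B) K (1 - z) * M) ∧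
      ∀ z ∈ Lens, (Yf (-B) K (1 - z)).transpose * Yf B.transpose Ks (1 - z) = 1 := by
  have hAt : (-A.transpose) ^ n = 0 := by rw [neg_pow, ← transpose_pow, hA, transpose_zero, mul_zero]
  have hBt : (B.transpose) ^ n = 0 := by
    have h1 : B.transpose = (-(-B)).transpose := by rw [neg_neg]
    rw [h1, transpose_neg, neg_pow, ← transpose_pow, hB, transpose_zero, mul_zero]
  obtain ⟨Hs, hHs⟩ := exists_sol hAt (-B.transpose)
  have hhalf : ((1 / 2 : ℝ) : ℂ) ∈ Lens := real_mem_Lens (by norm_num) (by norm_num)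
  set Y : ℂ → Matrix (Fin n) (Fin n) ℂ := fun z => Yf A H z with hY
  set Ys : ℂ → Matrix (Fin n) (Fin n) ℂ := fun z => Yf (-A.transpose) Hs z with hYs
  set Z : ℂ → Matrix (Fin n) (Fin n) ℂ := fun z => Yf (-B) K (1 - z) with hZ
  set Zs : ℂ → Matrix (Fin n) (Fin n) ℂ := fun z => Yf B.transpose Ks (1 - z) with hZs
  have hYY : ∀ z ∈ Lens, (Y z).transpose * Ys z = 1 := by
    intro z hz
    have := pair_one (J := 1) hA hAt (by simp) (by simp) hH hHs hz
    rwa [mul_one] at this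
  have hZZ : ∀ z ∈ Lens, (Z z).transpose * Zs z = 1 := by
    intro z hz
    have := pair_one (J := 1) hB hBt (by simp) (by simp) hK hKs (symm_Lens hz)
    rwa [mul_one] at this
  have hZZ' : ∀ z ∈ Lens, Z z * (Zs z).transpose = 1 := by
    intro z hz
    have h1 := congrArg Matrix.transpose (hZZ z hz)
    rw [transpose_mul, transpose_transpose, transpose_one] at h1
    exact mul_eq_one_comm.1 h1
  have hYd : ∀ z ∈ Lens, HD Y (Gm A B z * Y z) z := fun z hz =>
    Yf_ode hH hA (mem_Lens.1 hz).1 (slit_Lens hz)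
  have hZsd : ∀ z ∈ Lens, HD Zs ((-(Gm A B z).transpose) * Zs z) z := by
    intro z hz
    have hz' := symm_Lens hz
    have h1 := Yf_ode hKs hBt (mem_Lens.1 hz').1 (slit_Lens hz')
    have h2 : HasDerivAt (fun w : ℂ => 1 - w) (-1) z := by
      simpa using (hasDerivAt_id z).const_sub 1
    refine (h1.comp h2).congr ?_
    rw [hZs, ← smul_mul_assoc]
    congr 1
    unfold Gm
    rw [sub_sub_cancel, transpose_add, transpose_smul, transpose_smul, neg_smul, one_smul, add_comm]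
  set W := (Zs ((1 / 2 : ℝ) : ℂ)).transpose * Y ((1 / 2 : ℝ) : ℂ) with hW
  have hWc : ∀ z ∈ Lens, (Zs z).transpose * Y z = W := by
    intro z hz
    have h1 := const_Lens (F := fun z => (Zs z).transpose * 1 * Y z)
      (fun x hx => pair_HD' (J := 1) (G := -(Gm A B x).transpose) (G' := Gm A B x) (by simp) (hZsd x hx) (hYd x hx)) hz hhalf
    simp only [mul_one] at h1
    exact h1
  refine ⟨W, (Ys ((1 / 2 : ℝ) : ℂ)).transpose * Z ((1 / 2 : ℝ) : ℂ), ?_, ?_, fun z hz => ?_, hZZ⟩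
  · have h1 : Y ((1 / 2 : ℝ) : ℂ) * (Ys ((1 / 2 : ℝ) : ℂ)).transpose = 1 := by
      have h1 := congrArg Matrix.transpose (hYY _ hhalf)
      rw [transpose_mul, transpose_transpose, transpose_one] at h1
      exact mul_eq_one_comm.1 h1
    calc W * ((Ys ((1 / 2 : ℝ) : ℂ)).transpose * Z ((1 / 2 : ℝ) : ℂ))
        = (Zs ((1 / 2 : ℝ) : ℂ)).transpose * (Y ((1 / 2 : ℝ) : ℂ) * (Ys ((1 / 2 : ℝ) : ℂ)).transpose) *
          Z ((1 / 2 : ℝ) : ℂ) := by rw [hW]; simp only [Matrix.mul_assoc]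
      _ = 1 := by rw [h1, mul_one]; exact mul_eq_one_comm.1 (hZZ' _ hhalf)
  · apply mul_eq_one_comm.1
    have h1 : Y ((1 / 2 : ℝ) : ℂ) * (Ys ((1 / 2 : ℝ) : ℂ)).transpose = 1 := by
      have h1 := congrArg Matrix.transpose (hYY _ hhalf)
      rw [transpose_mul, transpose_transpose, transpose_one] at h1
      exact mul_eq_one_comm.1 h1
    calc W * ((Ys ((1 / 2 : ℝ) : ℂ)).transpose * Z ((1 / 2 : ℝ) : ℂ))
        = (Zs ((1 / 2 : ℝ) : ℂ)).transpose * (Y ((1 / 2 : ℝ) : ℂ) * (Ys ((1 / 2 : ℝ) : ℂ)).transpose) *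
          Z ((1 / 2 : ℝ) : ℂ) := by rw [hW]; simp only [Matrix.mul_assoc]
      _ = 1 := by rw [h1, mul_one]; exact mul_eq_one_comm.1 (hZZ' _ hhalf)
  · rw [← hWc z hz, ← Matrix.mul_assoc]
    show _ = Z z * (Zs z).transpose * Y z
    rw [hZZ' z hz, one_mul]

lemma E_sq (hn : 2 ≤ n) {X : Matrix (Fin n) (Fin n) ℂ} (hX : X * X = 0) (s : ℂ) : E X s = 1 + s • X := by
  obtain ⟨m, rfl⟩ := Nat.exists_eq_add_of_le' hn
  have hp : ∀ i, X ^ (i + 1 + 1) = 0 := by
    intro i
    rw [add_assoc, pow_add, pow_two, hX, mul_zero]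
  unfold E
  rw [Finset.sum_range_succ', Finset.sum_range_succ']
  rw [Finset.sum_eq_zero fun i _ => by rw [hp, smul_zero]]
  simp only [zero_add, pow_one, Nat.factorial_one, Nat.cast_one, div_one, pow_zero, Nat.factorial_zero, one_smul]
  exact add_comm _ _

lemma an_part {N : Matrix (Fin n) (Fin n) ℂ} {N1 : Matrix (Fin n) (Fin n) ℂ} {K : ℕ → Matrix (Fin n) (Fin n) ℂ}
    (hK : Sol N N1 K) (hN : N ^ n = 0) (x : Fin n → ℂ) (i : Fin n) :
    AnalyticOnNhd ℂ (fun z => (Hf K (1 - z) *ᵥ x) i) (Metric.ball 1 1) := by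
  simp only [Matrix.mulVec, dotProduct]
  refine Finset.analyticOnNhd_fun_sum _ fun j _ => AnalyticOnNhd.mul ?_ analyticOnNhd_const
  intro z hz
  have h3 : AnalyticAt ℂ (fun w => Hf K w i j) (1 - z) := Hf_an hK hN i j (1 - z) (by
    rw [Metric.mem_ball, dist_comm, dist_eq_norm] at hz
    rwa [Metric.mem_ball, dist_zero_right])
  have h4 : AnalyticAt ℂ (fun w : ℂ => 1 - w) z := analyticAt_const.sub analyticAt_id
  exact h3.fun_comp h4

/-- **All relations between the solutions are invariant under the special linear group.** -/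
theorem invar' {A A' B' J : Matrix (Fin n) (Fin n) ℂ} {u q e e' : Fin n → ℂ} {H H' : ℕ → Matrix (Fin n) (Fin n) ℂ}
    (hodd : Odd n) (hn : 2 ≤ n) (hA : A ^ n = 0) (hA' : A' ^ n = 0) (hqu : q ⬝ᵥ u = 0)
    (hH : Sol A (vecMulVec u q) H) (hH' : Sol A' B' H') (hJ : J.det ≠ 0) (hJA : A.transpose * J + J * A' = 0)
    (hJB : (vecMulVec u q).transpose * J + J * B' = 0) (hAe : A *ᵥ e = 0) (hAe' : A' *ᵥ e' = 0)
    (hcyc : ∀ l v : Fin n → ℂ, l ⬝ᵥ e ≠ 0 → (J *ᵥ e') ⬝ᵥ v ≠ 0 → l ⬝ᵥ ((A ^ (n - 1)) *ᵥ v) ≠ 0) (i0 i1 : Fin n)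
    (hsing : ∀ g : ℂ → ℂ, AnalyticOnNhd ℂ g (Metric.ball 1 1) → (∀ z ∈ Lens, (Hf H z *ᵥ e) i0 = g z) → False)
    (hsing' : ∀ g : ℂ → ℂ, AnalyticOnNhd ℂ g (Metric.ball 1 1) → (∀ z ∈ Lens, (Hf H' z *ᵥ e') i1 = g z) → False)
    (g : Matrix (Fin n) (Fin n) ℂ) (hg : g.det = 1) : g ∈ Gal (Yf A H) := by
  set B : Matrix (Fin n) (Fin n) ℂ := vecMulVec u q with hBdef
  have hBB : B * B = 0 := by rw [hBdef, vecMulVec_mul_vecMulVec, hqu, zero_smul, vecMulVec_zero]
  have hB2 : (-B) * (-B) = 0 := by rw [neg_mul_neg, hBB]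
  have hB : (-B) ^ n = 0 := by
    obtain ⟨m, rfl⟩ := Nat.exists_eq_add_of_le hn
    rw [pow_add, pow_two, hB2, zero_mul]
  have hBT : B.transpose ^ n = 0 := by
    have h1 : B ^ n = 0 := by
      obtain ⟨m, rfl⟩ := Nat.exists_eq_add_of_le hn
      rw [pow_add, pow_two, hBB, zero_mul]
    rw [← transpose_pow, h1, transpose_zero]
  obtain ⟨K, hK⟩ := exists_sol hB (-A)
  obtain ⟨Ks, hKs⟩ := exists_sol hBT A.transpose
  obtain ⟨M, Mi, hMMi, hMiM, hconn, hdual⟩ := connect' hA hB hH hK hKs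
  set v : Fin n → ℂ := Mi *ᵥ u with hv
  set l : Fin n → ℂ := q ᵥ* M with hl
  have hlv : l ⬝ᵥ v = 0 := by
    rw [hl, hv, ← dotProduct_mulVec, mulVec_mulVec, hMMi, one_mulVec, hqu]
  have hvS : ∀ s, tr v l s ∈ Gal (Yf A H) := by
    intro s
    have h1 := conj_mem_Gal hB hK (Y := Yf A H) hMMi (fun x hx hx1 => hconn x (real_mem_Lens hx hx1)) (-s)
    rw [E_sq hn hB2, smul_neg, neg_smul, neg_neg] at h1
    have h2 := tr_conj Mi M hMiM u q s
    rw [← hv, ← hl] at h2
    rw [← h2]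
    exact h1
  refine sl_all hA hlv (hcyc l v ?_ ?_) hodd (fun c g hg => conj_E hA hH c g hg) hvS (Gal_closed _) g hg
  · intro h0
    have h1 : q ⬝ᵥ (M *ᵥ e) = 0 := by rw [dotProduct_mulVec]; exact h0
    have h2 : (-B) *ᵥ (M *ᵥ e) = 0 := by
      rw [neg_mulVec, hBdef, vecMulVec_mulVec, h1]
      simp
    refine hsing (fun z => (Hf K (1 - z) *ᵥ (M *ᵥ e)) i0) (an_part hK hB _ _) fun z hz => ?_
    have h3 := congrArg (fun X : Matrix (Fin n) (Fin n) ℂ => X *ᵥ e) (hconn z hz)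
    unfold Yf at h3
    rw [← mulVec_mulVec, E_fix hAe, ← mulVec_mulVec, ← mulVec_mulVec, E_fix h2] at h3
    rw [h3]
  · intro h0
    set x : Fin n → ℂ := Mi.transpose *ᵥ (J *ᵥ e') with hx
    have h2 : B.transpose *ᵥ x = 0 := by
      rw [hBdef, transpose_vecMulVec, vecMulVec_mulVec, hx, mulVec_transpose, dotProduct_comm, ← dotProduct_mulVec, ← hv, h0]
      simp
    have hJu : IsUnit J.det := Ne.isUnit hJ
    refine hsing' (fun z => (J⁻¹ *ᵥ (Hf Ks (1 - z) *ᵥ x)) i1) ?_ fun z hz => ?_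
    · have h3 : (fun z => (J⁻¹ *ᵥ (Hf Ks (1 - z) *ᵥ x)) i1) = fun z => ∑ j, J⁻¹ i1 j * (Hf Ks (1 - z) *ᵥ x) j := rfl
      rw [h3]
      exact Finset.analyticOnNhd_fun_sum _ fun j _ => analyticOnNhd_const.mul (an_part hKs hBT x j)
    · have h3 := pair_one hA hA' hJA hJB hH hH' hz
      have h4 := hconn z hz
      have h5 := hdual z hz
      set Y := Yf A H z with hY
      set Y' := Yf A' H' z with hY'
      set Z := Yf (-B) K (1 - z) with hZ
      set Zs := Yf B.transpose Ks (1 - z) with hZs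
      -- `Y' = J⁻¹ Zs Miᵀ J`
      have h6 : Y.transpose * (Zs * Mi.transpose) = 1 := by
        rw [h4, transpose_mul]
        calc M.transpose * Z.transpose * (Zs * Mi.transpose) = M.transpose * (Z.transpose * Zs) * Mi.transpose := by
              simp only [Matrix.mul_assoc]
          _ = 1 := by rw [h5, mul_one, ← transpose_mul, hMiM, transpose_one]
      have h7 : (Zs * Mi.transpose) * Y.transpose = 1 := mul_eq_one_comm.1 h6
      have h8 : Y' = J⁻¹ * ((Zs * Mi.transpose) * J) := by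
        calc Y' = J⁻¹ * J * Y' := by rw [nonsing_inv_mul _ hJu, one_mul]
          _ = J⁻¹ * (((Zs * Mi.transpose) * Y.transpose) * J * Y') := by rw [h7, one_mul, Matrix.mul_assoc]
          _ = J⁻¹ * ((Zs * Mi.transpose) * (Y.transpose * J * Y')) := by simp only [Matrix.mul_assoc]
          _ = _ := by rw [h3]
      have h9 : Hf H' z *ᵥ e' = Y' *ᵥ e' := by
        rw [hY']
        unfold Yf
        rw [← mulVec_mulVec, E_fix hAe']
      have h10 : Zs *ᵥ x = Hf Ks (1 - z) *ᵥ x := by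
        rw [hZs]
        unfold Yf
        rw [← mulVec_mulVec, E_fix h2]
      rw [h9, h8, ← h10, hx]
      simp only [mulVec_mulVec, Matrix.mul_assoc]

end Pool.Agent.U980.HS
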