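import Pool.Agent.U980.HS.Connect
import Pool.Agent.Y119.HY.Data2

/-!
# The hypergeometric system of odd order
-/

set_option autoImplicit false

open Filter Topology Matrix

namespace Pool.Agent.U980.HS

open Pool.Agent.Y119.HY (Am Jm um Bm kx aq hq Hq aq_succ Hq_zero mul_Am Am_mul lin_eq Jm_rel Am_pow Am_nil cm cm_apply
  cm_transpose cm_mul cm_add cm_neg cm_zero cm_one cm_pow Hc uc ec cm_vec uc_eq Ac_nil Ac_ec Ac_last a0 const_inv const_aeval
  a0_succ mv_apply Sol Hf Lens PG ps ps_smul no_ext Gal Yf)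

/-- monic polynomials of degree `n` without roots at the natural numbers -/
structure QM (n : ℕ) (Q : Polynomial ℚ) : Prop where
  two : 2 ≤ n
  monic : Q.Monic
  deg : Q.natDegree = n
  ne : ∀ l : ℕ, Q.eval (l : ℚ) ≠ 0

variable {n : ℕ} {Q : Polynomial ℚ}

lemma Bm_mul (k : ℕ) (hQ : QM n Q) (i j : Fin n) : (Bm n Q * Hq n Q k) i j = if (i : ℕ) + 1 = n then
    PowerSeries.coeff (j : ℕ) (Polynomial.aeval (kx k) Q * aq n Q k) -
      PowerSeries.coeff (j : ℕ) (kx k ^ n * aq n Q k) else 0 := by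
  rw [Matrix.mul_apply]
  unfold Bm
  simp only [Matrix.of_apply, ite_mul, zero_mul]
  split_ifs with h
  · have h1 : Polynomial.aeval (kx k) Q = ∑ l ∈ Finset.range n, PowerSeries.C (Q.coeff l) * kx k ^ l + kx k ^ n := by
      rw [Polynomial.aeval_eq_sum_range, hQ.deg, Finset.sum_range_succ]
      have h2 : Q.coeff n = 1 := by
        rw [← hQ.deg]
        exact hQ.monic.coeff_natDegree
      rw [h2, one_smul]
      congr 1
      refine Finset.sum_congr rfl fun l _ => ?_
      rw [PowerSeries.smul_eq_C_mul]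
    rw [h1, add_mul, map_add, add_sub_cancel_right, Finset.sum_mul, map_sum, Finset.sum_range]
    refine Finset.sum_congr rfl fun l _ => ?_
    rw [mul_assoc, PowerSeries.coeff_C_mul]
    rfl
  · exact Finset.sum_const_zero

theorem step_q (hQ : QM n Q) (k : ℕ) (i j : Fin n) :
    ((k : ℚ) + 1) * Hq n Q (k + 1) i j + ((Hq n Q (k + 1) * Am n) i j - (Am n * Hq n Q (k + 1)) i j) =
    (k : ℚ) * Hq n Q k i j + ((Hq n Q k * Am n) i j - (Am n * Hq n Q k) i j) + (Bm n Q * Hq n Q k) i j := by
  have e1 := lin_eq (n := n) (Q := Q) (k + 1) i j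
  have e2 := lin_eq (n := n) (Q := Q) k i j
  push_cast at e1
  rw [add_sub_assoc', add_sub_assoc', e1, e2, Am_mul, Am_mul, Bm_mul k hQ]
  by_cases h : (i : ℕ) + 1 < n
  · rw [dif_pos h, dif_pos h, if_neg (by omega)]
    unfold Hq hq
    simp only [Matrix.of_apply, sub_self, add_zero]
  · have h' : (i : ℕ) + 1 = n := by have := i.2; omega
    rw [dif_neg h, dif_neg h, if_pos h', h', sub_zero, sub_zero, add_sub_cancel, aq_succ]

lemma sol_c (hQ : QM n Q) : Sol (cm (Am n)) (cm (Bm n Q)) (Hc n Q) := by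
  refine ⟨?_, fun k => ?_⟩
  · unfold Hc
    rw [Hq_zero, cm_one]
  · ext i j
    have h := step_q hQ k i j
    unfold Hc
    rw [← cm_mul, ← cm_mul, ← cm_mul, ← cm_mul, ← cm_mul]
    simp only [Matrix.add_apply, Matrix.smul_apply, Matrix.sub_apply, smul_eq_mul, cm_apply]
    exact_mod_cast h

lemma a0_ne (hQ : QM n Q) (k : ℕ) : a0 n Q k ≠ 0 := by
  induction k with
  | zero =>
    unfold a0 aq
    simp
  | succ k ih =>
    rw [a0_succ]
    refine mul_ne_zero ih (div_ne_zero (hQ.ne k) (pow_ne_zero _ ?_))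
    exact_mod_cast Nat.succ_ne_zero k

lemma ratio (hQ : QM n Q) : Tendsto (fun k : ℕ => (((Q.eval (k : ℚ) / ((k : ℚ) + 1) ^ n : ℚ)) : ℝ)) atTop (𝓝 1) := by
  set P : Polynomial ℝ := Q.map (algebraMap ℚ ℝ) with hP
  set R : Polynomial ℝ := (Polynomial.X + Polynomial.C 1) ^ n with hR
  have hRm : R.Monic := (Polynomial.monic_X_add_C (1 : ℝ)).pow n
  have hPm : P.Monic := hQ.monic.map _
  have hdeg : P.degree = R.degree := by
    rw [Polynomial.degree_eq_natDegree hPm.ne_zero, Polynomial.degree_eq_natDegree hRm.ne_zero, hP,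
      Polynomial.natDegree_map, hQ.deg, hR, Polynomial.natDegree_pow, Polynomial.natDegree_X_add_C, mul_one]
  have h1 := Polynomial.div_tendsto_atTop_leadingCoeff_div_of_degree_eq P R hdeg
  rw [hPm.leadingCoeff, hRm.leadingCoeff, div_one] at h1
  have h2 := h1.comp (tendsto_natCast_atTop_atTop (R := ℝ))
  refine h2.congr fun k => ?_
  simp only [Function.comp]
  rw [hR, Polynomial.eval_pow, Polynomial.eval_add, Polynomial.eval_X, Polynomial.eval_C, hP]
  push_cast
  congr 1
  rw [Polynomial.eval_map, ← Polynomial.aeval_def]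
  have := Polynomial.aeval_algebraMap_apply ℝ (k : ℚ) Q
  simp only [map_natCast] at this
  rw [this, Polynomial.aeval_def]
  rfl

/-- the first solution is singular at one -/
lemma sing (hQ : QM n Q) (g : ℂ → ℂ) (hg : AnalyticOnNhd ℂ g (Metric.ball 1 1))
    (hext : ∀ z ∈ Lens, (Hf (Hc n Q) z *ᵥ ec n) ⟨0, by have := hQ.two; omega⟩ = g z) : False := by
  have hn := hQ.two
  have e1 : ∀ z, (Hf (Hc n Q) z *ᵥ ec n) ⟨0, by omega⟩ = ps (fun k => (((a0 n Q k : ℚ) : ℝ) : ℂ)) z := by
    intro z
    rw [mv_apply]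
    unfold ec
    rw [Finset.sum_eq_single ⟨0, by omega⟩]
    · rw [if_pos rfl, mul_one]
      unfold Hf
      rw [Matrix.of_apply]
      congr 1
      funext k
      unfold Hc
      rw [cm_apply]
      unfold Hq hq a0
      rw [Matrix.of_apply]
      simp
    · intro b _ hb
      rw [if_neg, mul_zero]
      intro h'
      exact hb (Fin.ext h')
    · intro h'
      exact absurd (Finset.mem_univ _) h'
  have hpg : PG fun k => (((a0 n Q k : ℚ) : ℝ) : ℂ) := by
    have h := (sol_c hQ).growth Ac_nil ⟨0, by omega⟩ ⟨0, by omega⟩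
    refine (congrArg PG ?_).mp h
    funext k
    unfold Hc
    rw [cm_apply]
    unfold Hq hq a0
    rw [Matrix.of_apply]
    simp
  obtain ⟨K₀, hK₀⟩ := Filter.eventually_atTop.1 ((ratio hQ).eventually (lt_mem_nhds (show (9 / 10 : ℝ) < 1 by norm_num)))
  have hstep : ∀ k, ((a0 n Q (k + 1) : ℚ) : ℝ) = ((a0 n Q k : ℚ) : ℝ) * ((Q.eval (k : ℚ) / ((k : ℚ) + 1) ^ n : ℚ) : ℝ) := by
    intro k
    rw [a0_succ]
    push_cast
    rfl
  rcases lt_or_gt_of_ne (a0_ne hQ K₀) with h0 | h0
  · -- negative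
    have hpos : ∀ k ≥ K₀, ((a0 n Q k : ℚ) : ℝ) < 0 := by
      intro k hk
      induction k, hk using Nat.le_induction with
      | base => exact_mod_cast h0
      | succ k hk ih =>
        rw [hstep]
        exact mul_neg_of_neg_of_pos ih (by linarith [hK₀ k hk])
    refine no_ext (a := fun k => -((a0 n Q k : ℚ) : ℝ)) (K₀ := K₀) ?_ (fun k hk => by linarith [hpos k hk]) (fun k hk => ?_)
      (g := fun z => -g z) hg.neg fun z hz => ?_
    · have := hpg.smul (-1)
      refine (congrArg PG ?_).mp this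
      funext k
      push_cast
      ring
    · rw [hstep]
      nlinarith [hpos k hk, hK₀ k hk]
    · rw [← hext z hz, e1 z]
      have := ps_smul (c := fun k => (((a0 n Q k : ℚ) : ℝ) : ℂ)) (-1) z
      rw [neg_one_mul] at this
      rw [← this]
      congr 1
      funext k
      push_cast
      ring
  · have hpos : ∀ k ≥ K₀, 0 < ((a0 n Q k : ℚ) : ℝ) := by
      intro k hk
      induction k, hk using Nat.le_induction with
      | base => exact_mod_cast h0
      | succ k hk ih =>
        rw [hstep]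
        exact mul_pos ih (by linarith [hK₀ k hk])
    refine no_ext hpg hpos (fun k hk => ?_) hg fun z hz => ?_
    · rw [hstep]
      nlinarith [hpos k hk, hK₀ k hk]
    · rw [← hext z hz, e1 z]

/-! ### the dual equation -/

/-- monic polynomials of odd degree `n` with vanishing second coefficient and without integral roots -/
structure QG (n : ℕ) (Q : Polynomial ℚ) : Prop extends QM n Q where
  odd : Odd n
  tr : Q.coeff (n - 1) = 0
  ne' : ∀ l : ℕ, Q.eval (-(l : ℚ)) ≠ 0

/-- the polynomial of the dual equation -/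
noncomputable def du (Q : Polynomial ℚ) : Polynomial ℚ := -Q.comp (-Polynomial.X)

lemma du_coeff (Q : Polynomial ℚ) (i : ℕ) : (du Q).coeff i = (-1) ^ (i + 1) * Q.coeff i := by
  unfold du
  have h1 : (-Polynomial.X : Polynomial ℚ) = Polynomial.C (-1) * Polynomial.X := by simp
  rw [h1, Polynomial.coeff_neg, Polynomial.comp_C_mul_X_coeff, pow_succ]
  ring

lemma du_eval (Q : Polynomial ℚ) (x : ℚ) : (du Q).eval x = -Q.eval (-x) := by
  unfold du
  rw [Polynomial.eval_neg, Polynomial.eval_comp, Polynomial.eval_neg, Polynomial.eval_X]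

lemma QG.dual (hQ : QG n Q) : QM n (du Q) := by
  have hQn : Q.coeff n = 1 := by
    rw [← hQ.deg]
    exact hQ.monic.coeff_natDegree
  have h1 : (du Q).coeff n = 1 := by
    rw [du_coeff, hQn, mul_one]
    exact (hQ.odd.add_one).neg_one_pow
  have h2 : (du Q).natDegree ≤ n := by
    refine Polynomial.natDegree_le_iff_coeff_eq_zero.2 fun N hN => ?_
    rw [du_coeff, Polynomial.coeff_eq_zero_of_natDegree_lt (by rw [hQ.deg]; exact hN), mul_zero]
  have h3 : (du Q).natDegree = n := le_antisymm h2 (Polynomial.le_natDegree_of_ne_zero (by rw [h1]; exact one_ne_zero))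
  refine ⟨hQ.two, ?_, h3, fun l => ?_⟩
  · rw [Polynomial.Monic, Polynomial.leadingCoeff, h3, h1]
  · rw [du_eval]
    exact neg_ne_zero.2 (hQ.ne' l)

/-- the last row as a vector -/
noncomputable def qv (n : ℕ) (Q : Polynomial ℚ) : Fin n → ℂ := fun j => ((Q.coeff j : ℚ) : ℂ)

lemma cm_Bm' : cm (Bm n Q) = vecMulVec (uc n) (qv n Q) := by
  ext i j
  rw [cm_apply, vecMulVec_apply]
  unfold Bm uc qv
  simp only [Matrix.of_apply]
  split_ifs <;> simp

lemma qv_uc (hQ : QG n Q) : qv n Q ⬝ᵥ uc n = 0 := by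
  have hn := hQ.two
  unfold dotProduct uc qv
  rw [Finset.sum_eq_single ⟨n - 1, by omega⟩]
  · rw [if_pos (by simp only; omega)]
    simp only
    rw [hQ.tr]
    simp
  · intro b _ hb
    rw [if_neg, mul_zero]
    intro h'
    exact hb (Fin.ext (by simp only; omega))
  · intro h'
    exact absurd (Finset.mem_univ _) h'

/-- the form between the equation and its dual -/
lemma Jm_dual (hQ : QG n Q) : (Bm n Q).transpose * Jm n (du Q) + Jm n (du Q) * Bm n (du Q) = 0 := by
  have hn := hQ.two
  have hodd := hQ.odd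
  ext i j
  have h1 : ((Bm n Q).transpose * Jm n (du Q)) i j = Q.coeff i * (du Q).coeff j := by
    rw [Matrix.mul_apply, Finset.sum_eq_single ⟨n - 1, by omega⟩]
    · rw [Matrix.transpose_apply]
      unfold Bm Jm
      simp only [Matrix.of_apply]
      rw [if_pos (by omega), if_pos (by omega)]
      have e1 : n - 1 + (j : ℕ) + 1 - n = j := by omega
      have h2 : Even (n - 1) := by
        obtain ⟨b, hb⟩ := hodd
        exact ⟨b, by omega⟩
      rw [e1, h2.neg_one_pow, one_mul]
    · intro b _ hb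
      rw [Matrix.transpose_apply]
      unfold Bm
      simp only [Matrix.of_apply]
      rw [if_neg, zero_mul]
      intro h'
      exact hb (Fin.ext (by simp only; omega))
    · intro h'
      exact absurd (Finset.mem_univ _) h'
  have h2 : (Jm n (du Q) * Bm n (du Q)) i j = (-1) ^ (i : ℕ) * (du Q).coeff i * (du Q).coeff j := by
    rw [Matrix.mul_apply, Finset.sum_eq_single ⟨n - 1, by omega⟩]
    · unfold Bm Jm
      simp only [Matrix.of_apply]
      rw [if_pos (by omega), if_pos (by omega)]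
      have e1 : (i : ℕ) + (n - 1) + 1 - n = i := by omega
      rw [e1]
    · intro b _ hb
      unfold Bm
      simp only [Matrix.of_apply]
      rw [if_neg, mul_zero]
      intro h'
      exact hb (Fin.ext (by simp only; omega))
    · intro h'
      exact absurd (Finset.mem_univ _) h'
  rw [Matrix.add_apply, h1, h2, Matrix.zero_apply, du_coeff Q i]
  have h5 : (-1 : ℚ) ^ (i : ℕ) * (-1) ^ (i : ℕ) = 1 := by rw [← pow_add, Even.neg_one_pow ⟨_, rfl⟩]
  rw [pow_succ]
  linear_combination (-(Q.coeff i * (du Q).coeff j)) * h5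

lemma Jm_det' (h0 : Q.coeff 0 ≠ 0) : (Jm n Q).det ≠ 0 := by
  have h1 := Matrix.det_permute' (Fin.revPerm : Equiv.Perm (Fin n)) (Jm n Q)
  have h2 : ((Jm n Q).submatrix id (Fin.revPerm : Equiv.Perm (Fin n))).det = ∏ i : Fin n, ((-1) ^ (i : ℕ) * Q.coeff 0) := by
    rw [Matrix.det_of_isLowerTriangular]
    · refine Finset.prod_congr rfl fun i _ => ?_
      rw [Matrix.submatrix_apply]
      unfold Jm
      simp only [Matrix.of_apply, id, Fin.revPerm_apply, Fin.val_rev]
      have := i.2
      rw [if_pos (by omega)]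
      congr 2
      omega
    · intro i j hij
      have hij' : (i : ℕ) < j := hij
      rw [Matrix.submatrix_apply]
      unfold Jm
      simp only [Matrix.of_apply, id, Fin.revPerm_apply, Fin.val_rev]
      have := j.2
      rw [if_neg (by omega)]
  have h3 : ((Jm n Q).submatrix id (Fin.revPerm : Equiv.Perm (Fin n))).det ≠ 0 := by
    rw [h2]
    exact Finset.prod_ne_zero_iff.2 fun i _ => mul_ne_zero (pow_ne_zero _ (by norm_num)) h0
  intro h0
  rw [h0, mul_zero] at h1
  exact h3 h1

lemma Jm_ec (hn : 2 ≤ n) (hodd : Odd n) : cm (Jm n Q) *ᵥ ec n = ((Q.coeff 0 : ℚ) : ℂ) • uc n := by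
  funext i
  rw [mv_apply]
  unfold ec uc
  rw [Finset.sum_eq_single ⟨0, by omega⟩]
  · rw [if_pos rfl, mul_one, cm_apply]
    unfold Jm
    simp only [Matrix.of_apply, Pi.smul_apply, smul_eq_mul]
    have hi := i.2
    by_cases h : (i : ℕ) + 1 = n
    · rw [if_pos (by omega), if_pos h]
      have h2 : Even (i : ℕ) := by
        obtain ⟨b, hb⟩ := hodd
        exact ⟨b, by omega⟩
      rw [h2.neg_one_pow]
      have e1 : (i : ℕ) + 0 + 1 - n = 0 := by omega
      rw [e1]
      simp
    · rw [if_neg (by omega), if_neg h]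
      simp
  · intro b _ hb
    rw [if_neg, mul_zero]
    intro h'
    exact hb (Fin.ext h')
  · intro h'
    exact absurd (Finset.mem_univ _) h'

/-- **The relations between the solutions of the hypergeometric system are invariant under the special linear group.** -/
theorem hyp_invar' (hQ : QG n Q) (g : Matrix (Fin n) (Fin n) ℂ) (hg : g.det = 1) : g ∈ Gal (Yf (cm (Am n)) (Hc n Q)) := by
  have hn := hQ.two
  have hs := sol_c hQ.toQM
  rw [cm_Bm'] at hs
  have hs' := sol_c hQ.dual
  have hq0 : (du Q).coeff 0 ≠ 0 := by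
    have h1 := hQ.dual.ne 0
    rwa [Nat.cast_zero, ← Polynomial.coeff_zero_eq_eval_zero] at h1
  have hJ : (cm (Jm n (du Q))).det ≠ 0 := by
    have h : (cm (Jm n (du Q))).det = algebraMap ℚ ℂ (Jm n (du Q)).det := (RingHom.map_det _ _).symm
    rw [h]
    exact (map_ne_zero _).2 (Jm_det' hq0)
  refine invar' (A' := cm (Am n)) (B' := cm (Bm n (du Q))) (J := cm (Jm n (du Q))) hQ.odd hn Ac_nil Ac_nil (qv_uc hQ) hs hs' hJ
    ?_ ?_ (Ac_ec n) (Ac_ec n) (fun l v hl hv => ?_) ⟨0, by omega⟩ ⟨0, by omega⟩ (fun g hg hext => sing hQ.toQM g hg hext)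
    (fun g hg hext => sing hQ.dual g hg hext) g hg
  · rw [← cm_transpose, ← cm_mul, ← cm_mul, ← cm_add, Jm_rel, cm_zero]
  · rw [← cm_Bm', ← cm_transpose, ← cm_mul, ← cm_mul, ← cm_add, Jm_dual hQ, cm_zero]
  · rw [Jm_ec hn hQ.odd, smul_dotProduct, smul_eq_mul] at hv
    have h1 : uc n ⬝ᵥ v = v ⟨n - 1, by omega⟩ := by
      unfold dotProduct uc
      rw [Finset.sum_eq_single ⟨n - 1, by omega⟩]
      · rw [if_pos (by simp only; omega), one_mul]
      · intro b _ hb
        rw [if_neg, zero_mul]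
        intro h'
        exact hb (Fin.ext (by simp only; omega))
      · intro h'
        exact absurd (Finset.mem_univ _) h'
    rw [Ac_last hn, dotProduct_smul, smul_eq_mul]
    rw [h1] at hv
    exact mul_ne_zero (right_ne_zero_of_mul hv) hl

end Pool.Agent.U980.HS
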