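import Pool.Agent.U980.HS.Data
import Pool.Agent.Y119.HY.Rl

/-!
# The hypergeometric system of odd order: the determinant, the inverse matrix
-/

set_option autoImplicit false

open PowerSeries Matrix

namespace Pool.Agent.U980.HS

open Pool.Agent.Y113 hiding Bm
open Pool.Agent.Y119.HY (Am Bm Hq hq hps Hq_zero Am_nil mul_Am cm)
open Pool.Agent.Y119.HZ (Hp km km_apply cf cf_Hp cf_km_mul cf_mul_km th cf_th cf_ext SDc_C SDc.sum' coeff_X_deriv)

variable {n : ℕ} {Q : Polynomial ℚ}

section der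
variable {R A ι : Type*} [CommRing R] [CommRing A] [Algebra R A] [DecidableEq ι]

lemma der_prod (D : Derivation R A A) (s : Finset ι) (f : ι → A) :
    D (∏ i ∈ s, f i) = ∑ i ∈ s, (∏ j ∈ s.erase i, f j) * D (f i) := by
  induction s using Finset.induction_on with
  | empty => simp
  | insert a s ha ih =>
    rw [Finset.prod_insert ha, D.leibniz, ih, Finset.sum_insert ha, Finset.erase_insert ha, smul_eq_mul, smul_eq_mul, add_comm,
      Finset.mul_sum]
    congr 1
    refine Finset.sum_congr rfl fun i hi => ?_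
    have h1 : a ≠ i := fun h => ha (h ▸ hi)
    rw [Finset.erase_insert_of_ne h1, Finset.prod_insert (fun h => ha (Finset.mem_of_mem_erase h))]
    ring

/-- Jacobi's formula -/
lemma der_det [Fintype ι] (D : Derivation R A A) (M : Matrix ι ι A) :
    D M.det = (M.adjugate * M.map D).trace := by
  have h2 : (M.adjugate * M.map D).trace = ∑ i, (M.updateCol i (fun a => D (M a i))).det := by
    simp only [Matrix.trace, Matrix.diag]
    refine Finset.sum_congr rfl fun i _ => ?_
    rw [← Matrix.cramer_apply, Matrix.cramer_eq_adjugate_mulVec]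
    rfl
  rw [h2]
  simp_rw [Matrix.det_apply']
  rw [map_sum, Finset.sum_comm]
  refine Finset.sum_congr rfl fun σ _ => ?_
  rw [D.leibniz, D.map_intCast, smul_zero, add_zero, der_prod, smul_eq_mul, Finset.mul_sum]
  refine Finset.sum_congr rfl fun i _ => ?_
  congr 1
  rw [← Finset.mul_prod_erase Finset.univ _ (Finset.mem_univ i)]
  rw [Matrix.updateCol_self, mul_comm]
  congr 1
  refine Finset.prod_congr rfl fun j hj => ?_
  rw [Matrix.updateCol_ne (Finset.ne_of_mem_erase hj)]

end der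

/-- the system at the origin -/
theorem ode_Hp' (hQ : QM n Q) : (1 - X : ℚ⟦X⟧) • (th (Hp n Q) + Hp n Q * km (Am n)) =
    ((1 - X : ℚ⟦X⟧) • km (Am n) + (X : ℚ⟦X⟧) • km (Bm n Q)) * Hp n Q := by
  have hS : (1 - X : ℚ⟦X⟧) • (th (Hp n Q) + Hp n Q * km (Am n) - km (Am n) * Hp n Q) = (X : ℚ⟦X⟧) • (km (Bm n Q) * Hp n Q) := by
    have hc : ∀ k, cf (th (Hp n Q) + Hp n Q * km (Am n) - km (Am n) * Hp n Q) k =
        (k : ℚ) • Hq n Q k + (Hq n Q k * Am n - Am n * Hq n Q k) := by
      intro k
      have h1 : cf (th (Hp n Q) + Hp n Q * km (Am n) - km (Am n) * Hp n Q) k =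
          cf (th (Hp n Q)) k + cf (Hp n Q * km (Am n)) k - cf (km (Am n) * Hp n Q) k := by
        ext i j
        unfold cf
        simp only [Matrix.map_apply, Matrix.sub_apply, Matrix.add_apply, map_sub, map_add]
      rw [h1, cf_th, cf_mul_km, cf_km_mul, cf_Hp, add_sub_assoc]
    ext i j k
    rw [Matrix.smul_apply, Matrix.smul_apply, smul_eq_mul, smul_eq_mul, sub_mul, one_mul, map_sub]
    have h2 : ∀ k, coeff k ((th (Hp n Q) + Hp n Q * km (Am n) - km (Am n) * Hp n Q) i j) =
        ((k : ℚ) • Hq n Q k + (Hq n Q k * Am n - Am n * Hq n Q k)) i j := fun k => congrFun (congrFun (hc k) i) j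
    have h3 : ∀ k, coeff k ((km (Bm n Q) * Hp n Q) i j) = (Bm n Q * Hq n Q k) i j := by
      intro k
      have := congrFun (congrFun (cf_km_mul (Bm n Q) (Hp n Q) k) i) j
      rw [cf_Hp] at this
      exact this
    rcases k with _ | k
    · rw [coeff_zero_X_mul, coeff_zero_X_mul, h2, Hq_zero]
      simp
    · rw [coeff_succ_X_mul, coeff_succ_X_mul, h2, h2, h3]
      have h4 := step_q hQ k i j
      simp only [Matrix.add_apply, Matrix.smul_apply, Matrix.sub_apply, smul_eq_mul]
      push_cast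
      linear_combination h4
  rw [smul_sub] at hS
  rw [add_mul, smul_mul_assoc, smul_mul_assoc, ← hS]
  abel

/-- **the determinant** -/
theorem det_Hp (hQ : QM n Q) (htr : Q.coeff (n - 1) = 0) : (Hp n Q).det = 1 := by
  have hn := hQ.two
  set H := Hp n Q with hH
  set G : Matrix (Fin n) (Fin n) ℚ⟦X⟧ := (1 - X : ℚ⟦X⟧) • km (Am n) + (X : ℚ⟦X⟧) • km (Bm n Q) with hG
  have hode := ode_Hp' hQ
  rw [← hH, ← hG] at hode
  have htA : (km (Am n)).trace = 0 := by
    unfold Matrix.trace
    refine Finset.sum_eq_zero fun i _ => ?_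
    rw [Matrix.diag_apply, km_apply]
    unfold Am
    rw [Matrix.of_apply, if_neg (by omega), map_zero]
  have htB : (km (Bm n Q)).trace = 0 := by
    unfold Matrix.trace
    refine Finset.sum_eq_zero fun i _ => ?_
    rw [Matrix.diag_apply, km_apply]
    unfold Bm
    rw [Matrix.of_apply]
    split_ifs with h
    · have e : (i : ℕ) = n - 1 := by omega
      rw [e, htr, map_zero]
    · rw [map_zero]
  have htG : G.trace = 0 := by
    rw [hG, Matrix.trace_add, Matrix.trace_smul, Matrix.trace_smul, htA, htB, smul_zero, smul_zero, add_zero]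
  have hth : (1 - X : ℚ⟦X⟧) • th H = G * H - (1 - X : ℚ⟦X⟧) • (H * km (Am n)) := by
    rw [← hode, smul_add]
    abel
  have h1 : (1 - X : ℚ⟦X⟧) * (X * d⁄dX ℚ H.det) = 0 := by
    have e1 : X * d⁄dX ℚ H.det = (H.adjugate * th H).trace := by
      rw [der_det]
      have e2 : th H = (X : ℚ⟦X⟧) • H.map (d⁄dX ℚ) := by
        ext1 i j
        unfold th
        rw [Matrix.of_apply, Matrix.smul_apply, Matrix.map_apply, smul_eq_mul]
      rw [e2, mul_smul_comm, Matrix.trace_smul, smul_eq_mul]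
    rw [e1, ← smul_eq_mul, ← Matrix.trace_smul, ← mul_smul_comm, hth, mul_sub, Matrix.trace_sub, mul_smul_comm,
      ← Matrix.mul_assoc, ← Matrix.mul_assoc, Matrix.adjugate_mul, Matrix.trace_smul, smul_mul_assoc, one_mul, Matrix.trace_smul,
      htA, Matrix.trace_mul_comm, ← Matrix.mul_assoc, Matrix.mul_adjugate, smul_mul_assoc, one_mul, Matrix.trace_smul, htG]
    simp
  have h1X : (1 - X : ℚ⟦X⟧) ≠ 0 := by
    intro h0
    have := congrArg (coeff 0) h0
    simp at this
  have h2 := (mul_eq_zero.1 h1).resolve_left h1X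
  have h3 : ∀ k : ℕ, (k : ℚ) * coeff k H.det = 0 := by
    intro k
    rw [← coeff_X_deriv, h2, map_zero]
  ext k
  rcases k with _ | k
  · rw [coeff_zero_eq_constantCoeff_apply, RingHom.map_det]
    have h4 : (constantCoeff (R := ℚ)).mapMatrix H = 1 := by
      have h5 := cf_Hp (n := n) (Q := Q) 0
      rw [Hq_zero] at h5
      ext i j
      rw [RingHom.mapMatrix_apply, Matrix.map_apply, ← coeff_zero_eq_constantCoeff_apply]
      exact congrFun (congrFun h5 i) j
    rw [h4, Matrix.det_one]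
    simp
  · have h4 := (mul_eq_zero.1 (h3 (k + 1))).resolve_left (by exact_mod_cast Nat.succ_ne_zero k)
    rw [h4, coeff_one, if_neg (Nat.succ_ne_zero k)]

lemma SDc_one : SDc (1 : ℚ⟦X⟧) := by
  have := SDc_C 1
  rwa [map_one] at this

lemma SDc.prod' {σ : Type*} (S : Finset σ) {f : σ → ℚ⟦X⟧} (h : ∀ i ∈ S, SDc (f i)) : SDc (∏ i ∈ S, f i) := by
  classical
  induction S using Finset.induction_on with
  | empty =>
    rw [Finset.prod_empty]
    exact SDc_one
  | insert a S ha ih =>
    rw [Finset.prod_insert ha]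
    exact (h a (Finset.mem_insert_self _ _)).mul (ih fun i hi => h i (Finset.mem_insert_of_mem hi))

lemma SDc_det {M : Matrix (Fin n) (Fin n) ℚ⟦X⟧} (hM : ∀ i j, SDc (M i j)) : SDc M.det := by
  rw [Matrix.det_apply']
  refine Pool.Agent.Y119.HZ.SDc.sum' _ fun σ _ => ?_
  have h1 : (((Equiv.Perm.sign σ : ℤ) : ℤ) : ℚ⟦X⟧) = C (((Equiv.Perm.sign σ : ℤ) : ℤ) : ℚ) := by
    rw [map_intCast]
  rw [h1]
  exact (SDc_C _).mul (SDc.prod' _ fun i _ => hM _ _)

lemma SDc_adj {M : Matrix (Fin n) (Fin n) ℚ⟦X⟧} (hM : ∀ i j, SDc (M i j)) (i j : Fin n) : SDc (M.adjugate i j) := by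
  rw [Matrix.adjugate_apply]
  refine SDc_det fun a b => ?_
  rw [Matrix.updateRow_apply]
  split_ifs
  · rw [Pi.single_apply]
    split_ifs
    · exact SDc_one
    · have := SDc_C 0
      rwa [map_zero] at this
  · exact hM a b

lemma mul_adj (hQ : QM n Q) (htr : Q.coeff (n - 1) = 0) : Hp n Q * (Hp n Q).adjugate = 1 := by
  rw [Matrix.mul_adjugate, det_Hp hQ htr, one_smul]

end Pool.Agent.U980.HS
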