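import Pool.Agent.U980.HS.Fam
import Pool.Agent.Y119.HY.Fin2

/-!
# Hypergeometric families with arbitrary groups: for almost all tuples of fibres all relations of bounded degree are
invariant under the groups
-/

set_option autoImplicit false

open PowerSeries Pool.Agent.Y113 Pool.Agent.Y120.GF Pool.Agent.Y120.GH

namespace Pool.Agent.U980.HS

open Pool.Agent.Y119.HY (Am cm Ep E Ep_eval E_neg Hf Hc Yf Vr Rel Gal E_add E_zero E_mul_neg)
open Pool.Agent.Y119.HZ (Hp cf cf_Hp ix hf evq PR ev_PR Ix dg deg_sub Vn Vn_fin spec_eq Jx pw sub' aeval_sub' aeval_MV' Vx Yt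
  ev_Hp)

/-- the data of a family: the holomorphic parts of the entries satisfy the hypotheses of the theorem on tuples, and all
relations between them are invariant under the group -/
structure FM (n : ℕ) (Q : Polynomial ℚ) (G : Set (Matrix (Fin n) (Fin n) ℂ)) : Prop where
  fam : ∀ δ : ℕ, ∃ (B : Finset (Fin δ → Option (Fin (n * n)))) (a : Polynomial ℤ)
      (M : (Fin δ → Option (Fin (n * n))) → B → Polynomial ℤ), a ≠ 0 ∧
      (∀ b, ps a * yw (hf n Q) b = ∑ β, ps (M b β) * yw (hf n Q) β.1) ∧ One (XF δ fun β : B => yw (hf n Q) β.1)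
  unif : ∃ C : ℝ, ∀ j m, |((coeff m (hf n Q j) : ℚ) : ℝ)| ≤ C ^ (m + 1)
  inv : ∀ R : MvPolynomial (Fin (n * n)) (Polynomial ℚ), MvPolynomial.aeval (hf n Q) R = 0 → ∀ x : ℝ, 0 < x → x < 1 →
    ∀ κ ∈ G, MvPolynomial.eval₂ (evq (x : ℂ)) (fun j => (Hf (Hc n Q) (x : ℂ) * κ) (ix n j).1 (ix n j).2) R = 0
  left : ∀ x : ℝ, 0 < x → x < 1 → ∃ W : Matrix (Fin n) (Fin n) ℂ, Hf (Hc n Q) (x : ℂ) * W = 1 ∧
    ∀ g ∈ G, ∀ s : ℂ, W * g * E (cm (Am n)) s ∈ G

variable {k : ℕ} {n : Fin k → ℕ} {Q : Fin k → Polynomial ℚ} {G : ∀ i, Set (Matrix (Fin (n i)) (Fin (n i)) ℂ)}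

theorem relI_vanish (hF : ∀ i, FM (n i) (Q i) (G i)) {δ : ℕ} {t : Fin k → ℕ} (ht : ∀ i, 2 ≤ t i)
    {κ : ∀ i, Matrix (Fin (n i)) (Fin (n i)) ℂ} (hκ : ∀ i, κ i ∈ G i) (l : Fin k → ℂ)
    {P : MvPolynomial (Vx n) ℂ} (hP : P ∈ relI δ (fun i => hf (n i) (Q i)) t) :
    MvPolynomial.aeval (pt (fun i j => (Hf (Hc (n i) (Q i)) (((1 / (t i : ℝ) : ℝ)) : ℂ) * κ i) (ix (n i) j).1 (ix (n i) j).2) l) P = 0 := by
  set θ := pt (fun i j => (Hf (Hc (n i) (Q i)) (((1 / (t i : ℝ) : ℝ)) : ℂ) * κ i) (ix (n i) j).1 (ix (n i) j).2) l with hθ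
  have h1 : relI δ (fun i => hf (n i) (Q i)) t ≤ RingHom.ker (MvPolynomial.aeval (R := ℂ) θ).toRingHom := by
    unfold relI
    rw [Ideal.span_le]
    rintro _ ⟨i, R, -, hR, rfl⟩
    show (MvPolynomial.aeval θ) (MvPolynomial.rename (fun j => (⟨i, some j⟩ : Vx n)) (MvPolynomial.map (spec (t i)) R)) = 0
    rw [MvPolynomial.aeval_rename, MvPolynomial.aeval_def, MvPolynomial.eval₂_map]
    have h2 : (algebraMap ℂ ℂ).comp (spec (t i)) = evq (((1 / (t i : ℝ) : ℝ)) : ℂ) := by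
      rw [← spec_eq]
      rfl
    rw [h2]
    have h3 : (2 : ℝ) ≤ t i := by exact_mod_cast ht i
    have h4 := (hF i).inv R hR (1 / (t i : ℝ)) (by positivity) (by rw [div_lt_one (by linarith)]; linarith) (κ i) (hκ i)
    have h5 : (θ ∘ fun j => (⟨i, some j⟩ : Vx n)) = fun j : Fin (n i * n i) =>
        (Hf (Hc (n i) (Q i)) (((1 / (t i : ℝ) : ℝ)) : ℂ) * κ i) (ix (n i) j).1 (ix (n i) j).2 := by
      funext j
      rfl
    rw [h5]
    exact h4
  exact h1 hP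

/-- **Few exceptional tuples.** -/
theorem tuples_gen (k δ D : ℕ) (n : Fin k → ℕ) (Q : Fin k → Polynomial ℚ)
    (G : ∀ i, Set (Matrix (Fin (n i)) (Fin (n i)) ℂ)) (hF : ∀ i, FM (n i) (Q i) (G i)) :
    ∃ c C : ℝ, 0 < c ∧ 0 ≤ C ∧ ∀ (V : Submodule ℚ ℂ) [Module.Finite ℚ V], Module.finrank ℚ V ≤ D →
      ∀ Ω : (∀ i, Matrix (Fin (n i)) (Fin (n i)) ℂ), ∀ (x : Fin k → ℕ) (N : ℕ), (∀ i, 1 ≤ x i) → 1 ≤ N →
      ∀ S : Finset (Fin k → ℕ), (∀ t ∈ S, (∀ i, x i < t i ∧ t i ≤ x i + N) ∧ ∃ P : MvPolynomial (Jx n) ℂ,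
        P.totalDegree ≤ δ ∧ (∀ s, P.coeff s ∈ V) ∧
        MvPolynomial.aeval (pw (fun i => ((Real.log (t i) : ℝ) : ℂ)) fun i => Yt (n i) (Q i) (t i) * Ω i) P = 0 ∧
        ∃ (l : Fin k → ℂ) (g : ∀ i, Matrix (Fin (n i)) (Fin (n i)) ℂ),
          (∀ i, g i ∈ G i) ∧ MvPolynomial.aeval (pw l fun i => g i * Ω i) P ≠ 0) →
      (S.card : ℝ) ≤ C * (N : ℝ) ^ (k - 1) * ∑ i, (1 + N / ((x i : ℝ) + N) ^ c) := by
  classical
  obtain ⟨c, C, hc, hC, hmain⟩ := tuples k (δ * dg n) ((Fintype.card (Option (Ix n))) ^ δ * D) (fun i => n i * n i)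
    (fun i => hf (n i) (Q i)) (fun i => (hF i).unif) (fun i => (hF i).fam _)
  refine ⟨c, C, hc, hC, ?_⟩
  intro V _ hV Ω x N hx hN S hS
  obtain ⟨hfin, hrank⟩ := Vn_fin Ω V δ
  refine hmain (Vn Ω V δ) (hrank.trans (Nat.mul_le_mul_left _ hV)) x N hN S fun t htS => ?_
  obtain ⟨hbox, P, hPd, hPV, hP0, l, g, hg, hPg⟩ := hS t htS
  refine ⟨hbox, MvPolynomial.aeval (sub' Ω) P, (aeval_MV' Ω hPd hPV).2, (aeval_MV' Ω hPd hPV).1, ?_, ?_⟩
  · -- the value
    have h1 : valpt (fun i => hf (n i) (Q i)) t =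
        pt (fun i j => Hf (Hc (n i) (Q i)) (((1 / (t i : ℝ) : ℝ)) : ℂ) (ix (n i) j).1 (ix (n i) j).2)
          (fun i => ((Real.log (t i) : ℝ) : ℂ)) := by
      unfold valpt
      congr 1
      funext i j
      exact ev_Hp _ _ _
    have h2 : MvPolynomial.aeval (valpt (fun i => hf (n i) (Q i)) t) (MvPolynomial.aeval (sub' Ω) P) =
        MvPolynomial.aeval (fun v => MvPolynomial.aeval (valpt (fun i => hf (n i) (Q i)) t) (sub' Ω v)) P :=
      MvPolynomial.aeval_bind₁ _ _ _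
    rw [h2, h1]
    have h3 := fun v => aeval_sub' Ω (fun i => Hf (Hc (n i) (Q i)) (((1 / (t i : ℝ) : ℝ)) : ℂ)) (fun i => ((Real.log (t i) : ℝ) : ℂ)) v
    simp only [h3]
    exact hP0
  · intro hmem
    apply hPg
    have ht2 : ∀ i, 2 ≤ t i := fun i => by
      have := (hbox i).1
      have := hx i
      omega
    have hN : ∀ i, (cm (Am (n i))) ^ n i = 0 := fun i => Pool.Agent.Y119.HY.Ac_nil
    have hinv : ∀ i, ∃ W : Matrix (Fin (n i)) (Fin (n i)) ℂ, Hf (Hc (n i) (Q i)) (((1 / (t i : ℝ) : ℝ)) : ℂ) * W = 1 ∧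
        ∀ g ∈ G i, ∀ s : ℂ, W * g * E (cm (Am (n i))) s ∈ G i := fun i => by
      have h3 : (2 : ℝ) ≤ t i := by exact_mod_cast ht2 i
      exact (hF i).left (1 / (t i : ℝ)) (by positivity) (by rw [div_lt_one (by linarith)]; linarith)
    choose W hW1 hW2 using hinv
    let κ : ∀ i, Matrix (Fin (n i)) (Fin (n i)) ℂ := fun i => W i * g i * E (cm (Am (n i))) (l i)
    have hκ : ∀ i, κ i ∈ G i := fun i => hW2 i _ (hg i) _
    have h1 := relI_vanish hF ht2 hκ l hmem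
    have h2 : MvPolynomial.aeval (pt (fun i j => (Hf (Hc (n i) (Q i)) (((1 / (t i : ℝ) : ℝ)) : ℂ) * κ i)
        (ix (n i) j).1 (ix (n i) j).2) l) (MvPolynomial.aeval (sub' Ω) P) =
        MvPolynomial.aeval (fun v => MvPolynomial.aeval (pt (fun i j => (Hf (Hc (n i) (Q i)) (((1 / (t i : ℝ) : ℝ)) : ℂ) * κ i)
          (ix (n i) j).1 (ix (n i) j).2) l) (sub' Ω v)) P := MvPolynomial.aeval_bind₁ _ _ _
    rw [h2] at h1
    have h3 := fun v => aeval_sub' Ω (fun i => Hf (Hc (n i) (Q i)) (((1 / (t i : ℝ) : ℝ)) : ℂ) * κ i) l v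
    simp only [h3] at h1
    have h4 : (fun i => Hf (Hc (n i) (Q i)) (((1 / (t i : ℝ) : ℝ)) : ℂ) * κ i * E (cm (Am (n i))) (-l i) * Ω i) =
        fun i => g i * Ω i := by
      funext i
      have e1 : E (cm (Am (n i))) (l i) * E (cm (Am (n i))) (-l i) = 1 := E_mul_neg (hN i) (l i)
      calc Hf (Hc (n i) (Q i)) (((1 / (t i : ℝ) : ℝ)) : ℂ) * κ i * E (cm (Am (n i))) (-l i) * Ω i =
          (Hf (Hc (n i) (Q i)) (((1 / (t i : ℝ) : ℝ)) : ℂ) * W i) * g i *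
            (E (cm (Am (n i))) (l i) * E (cm (Am (n i))) (-l i)) * Ω i := by
            show Hf (Hc (n i) (Q i)) (((1 / (t i : ℝ) : ℝ)) : ℂ) * (W i * g i * E (cm (Am (n i))) (l i)) *
              E (cm (Am (n i))) (-l i) * Ω i = _
            simp only [Matrix.mul_assoc]
        _ = g i * Ω i := by rw [hW1, e1, one_mul, mul_one]
    rw [h4] at h1
    exact h1

/-! ### the evaluation -/

section one
variable {n : ℕ} {Q : Polynomial ℚ}

/-- the entries converge for `t > 1` -/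
lemma Cv_Hp (hQ : QM n Q) {t : ℝ} (ht : 1 < t) (i j : Fin n) : Cv t (Hp n Q i j) := by
  have h1 := ((sol_c hQ).growth Pool.Agent.Y119.HY.Ac_nil i j).summable
    (r := 1 / t) (by positivity) (by rw [div_lt_one (by linarith)]; exact ht)
  refine h1.congr fun m => ?_
  congr 1
  unfold Hc
  rw [Pool.Agent.Y119.HY.cm_apply]
  have h2 : coeff m (Hp n Q i j) = Pool.Agent.Y119.HY.Hq n Q m i j := congrFun (congrFun (cf_Hp (Q := Q) m) i) j
  rw [h2]
  have h3 : ((Pool.Agent.Y119.HY.Hq n Q m i j : ℚ) : ℂ) = (((Pool.Agent.Y119.HY.Hq n Q m i j : ℚ) : ℝ) : ℂ) := by push_cast; rfl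
  rw [h3, Complex.norm_real, Real.norm_eq_abs]

lemma ev_aeval (hQ : QM n Q) {t : ℝ} (ht : 1 < t) (R : MvPolynomial (Fin (n * n)) (Polynomial ℚ)) :
    Cv t (MvPolynomial.aeval (hf n Q) R) ∧ ((ev t (MvPolynomial.aeval (hf n Q) R) : ℝ) : ℂ) =
      MvPolynomial.eval₂ (evq (((1 / t : ℝ)) : ℂ)) (fun j => ((ev t (hf n Q j) : ℝ) : ℂ)) R := by
  have ht0 : 0 < t := by linarith
  induction R using MvPolynomial.induction_on with
  | C p =>
    have h1 : MvPolynomial.aeval (hf n Q) (MvPolynomial.C p) = (p : ℚ⟦X⟧) := by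
      rw [MvPolynomial.aeval_C, PowerSeries.algebraMap_apply']
      simp
    rw [h1, MvPolynomial.eval₂_C]
    refine ⟨Cv.coe p, ?_⟩
    rw [ev_coe]
    unfold evq
    have h2 : (((1 / t : ℝ)) : ℂ) = algebraMap ℝ ℂ (1 / t) := rfl
    rw [h2]
    show _ = Polynomial.aeval (algebraMap ℝ ℂ (1 / t)) p
    rw [Polynomial.aeval_algebraMap_apply]
    rfl
  | add p q hp hq =>
    rw [map_add, MvPolynomial.eval₂_add, ← hp.2, ← hq.2, Cv.ev_add ht0 hp.1 hq.1]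
    refine ⟨Cv.add ht0 hp.1 hq.1, ?_⟩
    push_cast
    rfl
  | mul_X p j hp =>
    have h1 : Cv t (hf n Q j) := Cv_Hp hQ ht _ _
    rw [map_mul, MvPolynomial.aeval_X, MvPolynomial.eval₂_mul, MvPolynomial.eval₂_X, ← hp.2, Cv.ev_mul ht0 hp.1 h1]
    refine ⟨Cv.mul ht0 hp.1 h1, ?_⟩
    push_cast
    rfl

/-- a relation between the power series holds for the values -/
lemma rel_val (hQ : QM n Q) {R : MvPolynomial (Fin (n * n)) (Polynomial ℚ)} (hR : MvPolynomial.aeval (hf n Q) R = 0)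
    {y : ℝ} (hy : 0 < y) (hy1 : y < 1) :
    MvPolynomial.eval₂ (evq (y : ℂ)) (fun j => Hf (Hc n Q) (y : ℂ) (ix n j).1 (ix n j).2) R = 0 := by
  have hy' : 1 < 1 / y := by rw [lt_div_iff₀ hy]; linarith
  have h1 := (ev_aeval hQ hy' R).2
  rw [hR] at h1
  have h2 : ev (1 / y) (0 : ℚ⟦X⟧) = 0 := by
    unfold ev
    simp
  rw [h2, Complex.ofReal_zero, one_div_one_div] at h1
  have h3 : (fun j => ((ev (1 / y) (hf n Q j) : ℝ) : ℂ)) = fun j => Hf (Hc n Q) (y : ℂ) (ix n j).1 (ix n j).2 := by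
    funext j
    unfold hf
    rw [ev_Hp, one_div_one_div]
  rw [h3] at h1
  exact h1.symm

/-- **invariance of the relations between the entries of the holomorphic part** -/
theorem rel_inv (hQ : QM n Q) {R : MvPolynomial (Fin (n * n)) (Polynomial ℚ)} (hR : MvPolynomial.aeval (hf n Q) R = 0)
    {x : ℝ} (hx : 0 < x) (hx1 : x < 1) {κ : Matrix (Fin n) (Fin n) ℂ}
    (hκ : E (cm (Am n)) (-Complex.log x) * κ * E (cm (Am n)) (Complex.log x) ∈ Gal (Yf (cm (Am n)) (Hc n Q))) :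
    MvPolynomial.eval₂ (evq (x : ℂ)) (fun j => (Hf (Hc n Q) (x : ℂ) * κ) (ix n j).1 (ix n j).2) R = 0 := by
  set N := cm (Am n) with hNd
  have hN : N ^ n = 0 := Pool.Agent.Y119.HY.Ac_nil
  -- the relation
  have hrel : PR N R ∈ Rel (Yf N (Hc n Q)) := by
    intro y hy hy1
    rw [ev_PR]
    have e1 : Yf N (Hc n Q) (y : ℂ) * E N (-Complex.log y) = Hf (Hc n Q) (y : ℂ) := by
      unfold Yf
      rw [Matrix.mul_assoc, E_mul_neg hN, mul_one]
    rw [e1]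
    exact rel_val hQ hR hy hy1
  set L : ℂ := Complex.log x with hL
  set g : Matrix (Fin n) (Fin n) ℂ := E N (-L) * κ * E N L with hg
  have h1 := hκ _ hrel x hx hx1
  rw [ev_PR] at h1
  have e2 : Yf N (Hc n Q) (x : ℂ) * g * E N (-L) = Hf (Hc n Q) (x : ℂ) * κ := by
    unfold Yf
    have e3 : E N L * E N (-L) = 1 := E_mul_neg hN L
    calc Hf (Hc n Q) (x : ℂ) * E N (Complex.log x) * g * E N (-L) =
          Hf (Hc n Q) (x : ℂ) * (E N L * E N (-L)) * κ * (E N L * E N (-L)) := by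
            rw [hg]
            simp only [Matrix.mul_assoc]
            rfl
      _ = _ := by rw [e3, mul_one, mul_one]
  rw [← hL, e2] at h1
  exact h1

/-- the determinant of the holomorphic part -/
theorem det_Hf (hQ : QM n Q) (htr : Q.coeff (n - 1) = 0) {x : ℝ} (hx : 0 < x) (hx1 : x < 1) :
    (Hf (Hc n Q) (x : ℂ)).det = 1 := by
  set V : Matrix (Fin n) (Fin n) (MvPolynomial (Fin (n * n)) (Polynomial ℚ)) :=
    Matrix.of fun i j => MvPolynomial.X ((ix n).symm (i, j)) with hV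
  have h1 : MvPolynomial.aeval (hf n Q) (V.det - 1) = 0 := by
    rw [map_sub, map_one]
    have h2 : MvPolynomial.aeval (hf n Q) V.det = (Hp n Q).det := by
      have h3 := AlgHom.map_det (MvPolynomial.aeval (hf n Q)) V
      rw [h3]
      congr 1
      ext1 i j
      rw [AlgHom.mapMatrix_apply, Matrix.map_apply, hV, Matrix.of_apply, MvPolynomial.aeval_X]
      unfold hf
      rw [Equiv.apply_symm_apply]
    rw [h2, det_Hp hQ htr, sub_self]
  have h4 := rel_val hQ h1 hx hx1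
  rw [← MvPolynomial.coe_eval₂Hom, map_sub, map_one, RingHom.map_det, sub_eq_zero] at h4
  rw [← h4]
  congr 1
  ext1 i j
  rw [RingHom.mapMatrix_apply, Matrix.map_apply, hV, Matrix.of_apply, MvPolynomial.coe_eval₂Hom, MvPolynomial.eval₂_X,
    Equiv.apply_symm_apply]

end one

end Pool.Agent.U980.HS
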