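import Pool.Agent.Y119.HY.Gal
import Pool.Agent.H463R3.PSLn

/-!
# Odd order: density of the group generated by a regular unipotent group and a transvection

`N` is a nilpotent matrix of odd order `n ≥ 3`, `v` a vector and `l` a covector with `l v = 0` and `l N ^ (n - 1) v ≠ 0`.
A monoid of matrices which is closed under specialisation of polynomial families and under conjugation by `exp (c N)` and
which contains the transvections `1 + s v ⊗ l` contains the special linear group.
-/

set_option autoImplicit false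

open Matrix Polynomial

namespace Pool.Agent.U980.HS

open Pool.Agent.Y119.HY (E E_add E_zero E_mul_neg chain_li chain_ker pl pl_eval pl_coeff pl_ne)

variable {n : ℕ}

/-- the transvection `1 + s w ⊗ l` -/
noncomputable def tr (w l : Fin n → ℂ) (s : ℂ) : Matrix (Fin n) (Fin n) ℂ := 1 + s • vecMulVec w l

lemma tr_smul_left (c s : ℂ) (w l : Fin n → ℂ) : tr (c • w) l s = tr w l (c * s) := by
  unfold tr
  rw [smul_vecMulVec, smul_smul, mul_comm]

lemma tr_smul_right (c s : ℂ) (w l : Fin n → ℂ) : tr w (c • l) s = tr w l (c * s) := by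
  unfold tr
  rw [vecMulVec_smul, smul_smul, mul_comm]

lemma tr_zero_left (l : Fin n → ℂ) (s : ℂ) : tr 0 l s = 1 := by
  unfold tr
  rw [zero_vecMulVec, smul_zero, add_zero]

lemma tr_mul_left {w l m : Fin n → ℂ} (h : l ⬝ᵥ w = 0) (s : ℂ) : tr w l s * tr w m s = tr w (l + m) s := by
  unfold tr
  rw [mul_add, add_mul, add_mul, smul_mul_smul_comm, vecMulVec_mul_vecMulVec, h, zero_smul, vecMulVec_zero, smul_zero,
    vecMulVec_add, smul_add]
  simp only [mul_one, one_mul, add_zero]
  abel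

lemma tr_mul_right {w u l : Fin n → ℂ} (h : l ⬝ᵥ u = 0) (s : ℂ) : tr w l s * tr u l s = tr (w + u) l s := by
  unfold tr
  rw [mul_add, add_mul, add_mul, smul_mul_smul_comm, vecMulVec_mul_vecMulVec, h, zero_smul, vecMulVec_zero, smul_zero,
    add_vecMulVec, smul_add]
  simp only [mul_one, one_mul, add_zero]
  abel

lemma tr_conj (g h : Matrix (Fin n) (Fin n) ℂ) (hgh : g * h = 1) (w l : Fin n → ℂ) (s : ℂ) :
    g * tr w l s * h = tr (g *ᵥ w) (l ᵥ* h) s := by
  unfold tr
  rw [mul_add, mul_one, add_mul, hgh, mul_smul_comm, smul_mul_assoc, mul_vecMulVec, vecMulVec_mul]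

lemma tr_mul_neg {w l : Fin n → ℂ} (h : l ⬝ᵥ w = 0) (s : ℂ) : tr w l s * tr w l (-s) = 1 := by
  unfold tr
  rw [mul_add, add_mul, add_mul, smul_mul_smul_comm, vecMulVec_mul_vecMulVec, h, zero_smul, vecMulVec_zero, smul_zero,
    neg_smul]
  simp

lemma tr_mulVec (w l x : Fin n → ℂ) (s : ℂ) : tr w l s *ᵥ x = x + (s * (l ⬝ᵥ x)) • w := by
  unfold tr
  rw [add_mulVec, one_mulVec, smul_mulVec, vecMulVec_mulVec]
  congr 1
  ext i
  simp only [Pi.smul_apply, MulOpposite.smul_eq_mul_unop, MulOpposite.unop_op, smul_eq_mul]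
  ring

lemma vecMul_tr (w l x : Fin n → ℂ) (s : ℂ) : x ᵥ* tr w l s = x + (s * (x ⬝ᵥ w)) • l := by
  unfold tr
  rw [vecMul_add, vecMul_one, vecMul_smul, vecMul_vecMulVec, smul_smul]

section main

variable (S : Submonoid (Matrix (Fin n) (Fin n) ℂ))

/-- the pairs whose transvections lie in the monoid -/
def PP (w l : Fin n → ℂ) : Prop := l ⬝ᵥ w = 0 ∧ ∀ s, tr w l s ∈ S

variable {S}

lemma PP.smul_left {w l : Fin n → ℂ} (h : PP S w l) (c : ℂ) : PP S (c • w) l :=
  ⟨by rw [dotProduct_smul, h.1, smul_zero], fun s => by rw [tr_smul_left]; exact h.2 _⟩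

lemma PP.smul_right {w l : Fin n → ℂ} (h : PP S w l) (c : ℂ) : PP S w (c • l) :=
  ⟨by rw [smul_dotProduct, h.1, smul_zero], fun s => by rw [tr_smul_right]; exact h.2 _⟩

lemma PP.add_left {w u l : Fin n → ℂ} (h : PP S w l) (h' : PP S u l) : PP S (w + u) l :=
  ⟨by rw [dotProduct_add, h.1, h'.1, add_zero], fun s => by
    rw [← tr_mul_right h'.1]
    exact mul_mem (h.2 s) (h'.2 s)⟩

lemma PP.add_right {w l m : Fin n → ℂ} (h : PP S w l) (h' : PP S w m) : PP S w (l + m) :=
  ⟨by rw [add_dotProduct, h.1, h'.1, add_zero], fun s => by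
    rw [← tr_mul_left h.1]
    exact mul_mem (h.2 s) (h'.2 s)⟩

/-- conjugation -/
lemma PP.conj {w l u m : Fin n → ℂ} (h : PP S w l) (h' : PP S u m) (t : ℂ) :
    PP S (u + (t * (l ⬝ᵥ u)) • w) (m - (t * (m ⬝ᵥ w)) • l) := by
  refine ⟨?_, fun s => ?_⟩
  · rw [dotProduct_add, sub_dotProduct, sub_dotProduct, dotProduct_smul, dotProduct_smul, smul_dotProduct, smul_dotProduct,
      h'.1, h.1]
    simp only [smul_eq_mul]
    ring
  · have h1 := tr_conj (tr w l t) (tr w l (-t)) (tr_mul_neg h.1 t) u m s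
    rw [tr_mulVec, vecMul_tr, neg_mul, neg_smul, ← sub_eq_add_neg] at h1
    rw [← h1]
    exact mul_mem (mul_mem (h.2 t) (h'.2 s)) (h.2 (-t))

/-- if `m u ≠ 0 = l u` then `(u, l)` is a pair -/
lemma PP.cross (hcl : ∀ M : Matrix (Fin n) (Fin n) ℂ[X], (∀ c : ℂ, c ≠ 0 → M.map (Polynomial.eval c) ∈ S) →
    M.map (Polynomial.eval 0) ∈ S) {w l u m : Fin n → ℂ} (h : PP S w l) (h' : PP S u m) (h0 : l ⬝ᵥ u = 0)
    (h1 : m ⬝ᵥ w ≠ 0) : PP S u l := by
  -- `(w + t (m w) u, l)`
  have h2 : ∀ c : ℂ, c ≠ 0 → PP S (u + c • w) l := by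
    intro c hc
    have h3 := (h'.conj h (c⁻¹ * (m ⬝ᵥ w)⁻¹)).smul_left c
    rw [h0, mul_zero, zero_smul, sub_zero, smul_add, smul_smul, mul_assoc, inv_mul_cancel₀ h1, mul_one,
      mul_inv_cancel₀ hc, one_smul, add_comm] at h3
    exact h3
  refine ⟨h0, fun s => ?_⟩
  set M : Matrix (Fin n) (Fin n) ℂ[X] := 1 + (Polynomial.C s : ℂ[X]) • vecMulVec
      (fun i => Polynomial.C (u i) + Polynomial.X * Polynomial.C (w i)) (fun i => Polynomial.C (l i)) with hM
  have hMe : ∀ c : ℂ, M.map (Polynomial.eval c) = tr (u + c • w) l s := by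
    intro c
    ext i j
    unfold tr
    rw [hM]
    simp only [Matrix.map_apply, Matrix.add_apply, Matrix.smul_apply, smul_eq_mul, vecMulVec_apply,
      Polynomial.eval_add, Polynomial.eval_mul, Polynomial.eval_X, Polynomial.eval_C, Pi.add_apply, Pi.smul_apply]
    congr 1
    rw [Matrix.one_apply, Matrix.one_apply]
    split_ifs <;> simp
  have h3 := hcl M fun c hc => by rw [hMe]; exact (h2 c hc).2 s
  rw [hMe, zero_smul, add_zero] at h3
  exact h3

/-- the vectors for which all pairs are allowed -/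
def Good (S : Submonoid (Matrix (Fin n) (Fin n) ℂ)) (w : Fin n → ℂ) : Prop := ∀ l : Fin n → ℂ, l ⬝ᵥ w = 0 → PP S w l

lemma Good.zero : Good S (0 : Fin n → ℂ) := fun l hl => ⟨hl, fun s => by rw [tr_zero_left]; exact one_mem _⟩

lemma Good.smul {w : Fin n → ℂ} (h : Good S w) (c : ℂ) : Good S (c • w) := by
  rcases eq_or_ne c 0 with rfl | hc
  · rw [zero_smul]
    exact Good.zero
  · intro l hl
    rw [dotProduct_smul, smul_eq_mul] at hl
    exact (h l ((mul_eq_zero.1 hl).resolve_left hc)).smul_left c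

lemma exists_sep {w u : Fin n → ℂ} (h : ∀ c : ℂ, w ≠ c • u) : ∃ m : Fin n → ℂ, m ⬝ᵥ u = 0 ∧ m ⬝ᵥ w = 1 := by
  have h1 : w ∉ Submodule.span ℂ {u} := by
    intro h2
    obtain ⟨c, hc⟩ := Submodule.mem_span_singleton.1 h2
    exact h c hc.symm
  obtain ⟨f, hf1, hf2⟩ := Submodule.exists_le_ker_of_notMem h1
  have h3 : ∀ x : Fin n → ℂ, (fun i => f (Pi.single i 1)) ⬝ᵥ x = f x := by
    intro x
    rw [LinearMap.pi_apply_eq_sum_univ f x]
    unfold dotProduct
    refine Finset.sum_congr rfl fun i _ => ?_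
    rw [smul_eq_mul, mul_comm]
    congr 1
    show f (Pi.single i 1) = _
    congr 1
    funext j
    rw [Pi.single_apply]
    simp [eq_comm]
  refine ⟨(f w)⁻¹ • fun i => f (Pi.single i 1), ?_, ?_⟩
  · rw [smul_dotProduct, h3, LinearMap.mem_ker.1 (hf2 (Submodule.mem_span_singleton_self u)), smul_zero]
  · rw [smul_dotProduct, h3, smul_eq_mul, inv_mul_cancel₀ hf1]

lemma Good.add {w u : Fin n → ℂ} (hw : Good S w) (hu : Good S u) : Good S (w + u) := by
  by_cases h : ∃ c : ℂ, w = c • u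
  · obtain ⟨c, rfl⟩ := h
    have e : c • u + u = (c + 1) • u := by rw [add_smul, one_smul]
    rw [e]
    exact hu.smul _
  · push Not at h
    obtain ⟨m, hm1, hm2⟩ := exists_sep h
    intro l hl
    -- `l' = l + l(u) m`
    have h1 : (l + (l ⬝ᵥ u) • m) ⬝ᵥ w = 0 := by
      rw [add_dotProduct, smul_dotProduct, hm2, smul_eq_mul, mul_one, ← dotProduct_add, add_comm]
      rw [add_comm]
      exact hl
    have h2 := (hu m hm1).conj (hw _ h1) 1
    rw [hm2, one_mul, one_mul, one_smul, add_dotProduct, smul_dotProduct, hm1, smul_zero, add_zero, add_sub_cancel_right] at h2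
    exact h2

/-- the functional `l · x` -/
def fn (l : Fin n → ℂ) : (Fin n → ℂ) →ₗ[ℂ] ℂ where
  toFun x := l ⬝ᵥ x
  map_add' x y := dotProduct_add l x y
  map_smul' c x := by rw [dotProduct_smul]; rfl

lemma fn_apply (l x : Fin n → ℂ) : fn l x = l ⬝ᵥ x := rfl

lemma fn_ne {l : Fin n → ℂ} {x : Fin n → ℂ} (h : l ⬝ᵥ x ≠ 0) : fn l ≠ 0 := by
  intro h0
  apply h
  rw [← fn_apply, h0]
  rfl

lemma pl_natDegree_le (N : Matrix (Fin n) (Fin n) ℂ) (v : Fin n → ℂ) (l : (Fin n → ℂ) →ₗ[ℂ] ℂ) :
    (pl N v l).natDegree ≤ n - 1 := by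
  unfold pl
  refine Polynomial.natDegree_sum_le_of_forall_le _ _ fun i _ => ?_
  refine (Polynomial.natDegree_monomial_le _).trans ?_
  have := i.2
  omega

/-- a matrix coefficient which vanishes at infinitely many points -/
lemma coef_zero {N : Matrix (Fin n) (Fin n) ℂ} (hN : N ^ n = 0) {l y : Fin n → ℂ} (hl : l ᵥ* N ^ (n - 1) ≠ 0)
    {R : ℂ[X]} (hR : R ≠ 0) (h : ∀ d : ℂ, R.eval d ≠ 0 → l ⬝ᵥ (E N (-d) *ᵥ y) = 0) : y = 0 := by
  have h1 : (pl N y (fn l)).comp (-Polynomial.X) * R = 0 := by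
    refine Polynomial.funext fun d => ?_
    rw [Polynomial.eval_mul, Polynomial.eval_comp, Polynomial.eval_neg, Polynomial.eval_X, Polynomial.eval_zero, pl_eval,
      fn_apply]
    by_cases h2 : R.eval d = 0
    · rw [h2, mul_zero]
    · rw [h d h2, zero_mul]
  have h2 : pl N y (fn l) = 0 := by
    have h3 := (mul_eq_zero.1 h1).resolve_right hR
    have h4 := congrArg (fun q => Polynomial.comp q (-Polynomial.X)) h3
    simp only [Polynomial.comp_assoc, Polynomial.neg_comp, Polynomial.X_comp, neg_neg, Polynomial.comp_X,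
      Polynomial.zero_comp] at h4
    exact h4
  have hT : ∀ i : ℕ, (N.transpose ^ i) *ᵥ l = l ᵥ* N ^ i := by
    intro i
    rw [← transpose_pow, mulVec_transpose]
  have h3 : fn y = 0 := by
    refine chain_ker (N := N.transpose) (v := l) ?_ ?_ (fn y) fun i => ?_
    · rw [← transpose_pow, hN, transpose_zero]
    · rw [hT]
      exact hl
    · rw [hT, fn_apply, dotProduct_comm, ← dotProduct_mulVec, ← fn_apply]
      have h4 := pl_coeff (N := N) y (fn l) i
      rw [h2, Polynomial.coeff_zero] at h4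
      have h5 : ((i : ℕ).factorial : ℂ) ≠ 0 := by exact_mod_cast (i : ℕ).factorial_ne_zero
      exact (div_eq_zero_iff.1 h4.symm).resolve_right h5
  funext i
  have h4 := congrArg (fun f : (Fin n → ℂ) →ₗ[ℂ] ℂ => f (Pi.single i 1)) h3
  simp only [fn_apply, LinearMap.zero_apply] at h4
  rwa [dotProduct_single_one] at h4

lemma comp_coeff {p : ℂ[X]} {m : ℕ} (hp : p.natDegree = m) (a b : ℂ) (ha : a ≠ 0) :
    (p.comp (C a * X + C b)).natDegree ≤ m ∧ (p.comp (C a * X + C b)).coeff m = p.coeff m * a ^ m := by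
  have h1 : (C a * X + C b : ℂ[X]).natDegree = 1 := Polynomial.natDegree_linear ha
  have h2 : (p.comp (C a * X + C b)).natDegree = m := by
    rw [Polynomial.natDegree_comp, h1, hp, mul_one]
  refine ⟨h2.le, ?_⟩
  have h3 := Polynomial.leadingCoeff_comp (p := p) (q := C a * X + C b) (by rw [h1]; exact one_ne_zero)
  rw [Polynomial.leadingCoeff_linear ha] at h3
  rw [Polynomial.leadingCoeff, h2, Polynomial.leadingCoeff, hp] at h3
  exact h3

variable {N : Matrix (Fin n) (Fin n) ℂ} {v l : Fin n → ℂ}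

section good

variable (hN : N ^ n = 0) (hlv : l ⬝ᵥ v = 0) (htop : l ⬝ᵥ ((N ^ (n - 1)) *ᵥ v) ≠ 0) (hodd : Odd n)
  (hE : ∀ c : ℂ, ∀ g ∈ S, E N c * g * E N (-c) ∈ S) (hvS : ∀ s, tr v l s ∈ S)
  (hcl : ∀ M : Matrix (Fin n) (Fin n) (Polynomial ℂ), (∀ c : ℂ, c ≠ 0 → M.map (Polynomial.eval c) ∈ S) →
    M.map (Polynomial.eval 0) ∈ S)

include hN hE in
lemma conj_PP {w m : Fin n → ℂ} (h : PP S w m) (c : ℂ) : PP S (E N c *ᵥ w) (m ᵥ* E N (-c)) := by
  refine ⟨?_, fun s => ?_⟩
  · rw [← dotProduct_mulVec, mulVec_mulVec]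
    have h1 : E N (-c) * E N c = 1 := by
      have := E_mul_neg hN (-c)
      rwa [neg_neg] at this
    rw [h1, one_mulVec]
    exact h.1
  · rw [← tr_conj (E N c) (E N (-c)) (E_mul_neg hN c)]
    exact hE c _ (h.2 s)

include hN hlv htop hodd hE hvS hcl in
/-- **the vector `v` is good** -/
theorem good_v : Good S v := by
  set p := pl N v (fn l) with hp
  set m := n - 1 with hm
  have hn : 1 ≤ n := hodd.pos
  have hme : Even m := by
    obtain ⟨k, hk⟩ := hodd
    exact ⟨k, by omega⟩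
  have hpe : ∀ c, p.eval c = l ⬝ᵥ (E N c *ᵥ v) := fun c => pl_eval v (fn l) c
  have ha : p.coeff m ≠ 0 := by
    have h1 := pl_coeff (N := N) v (fn l) ⟨n - 1, by omega⟩
    rw [hp, hm]
    rw [h1]
    exact div_ne_zero htop (by exact_mod_cast (n - 1).factorial_ne_zero)
  have hpd : p.natDegree = m := le_antisymm (pl_natDegree_le N v (fn l)) (Polynomial.le_natDegree_of_ne_zero ha)
  set a := p.coeff m with had
  -- the compositions
  have hneg : p.comp (-X) = p.comp (C (-1) * X + C 0) := by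
    congr 1
    simp
  -- the choice of `c`
  obtain ⟨c, hc⟩ : ∃ c : ℂ, (p.comp (-X) * (p + p.comp (-X))).eval c ≠ 0 := by
    by_contra hcon
    push Not at hcon
    have h0 : p.comp (-X) * (p + p.comp (-X)) = 0 := Polynomial.funext fun c => by rw [hcon c, Polynomial.eval_zero]
    rcases mul_eq_zero.1 h0 with h1 | h1
    · have h2 := congrArg (fun q => Polynomial.coeff q m) h1
      simp only [Polynomial.coeff_zero] at h2
      rw [hneg, (comp_coeff hpd (-1) 0 (by norm_num)).2, hme.neg_one_pow, mul_one] at h2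
      exact ha h2
    · have h2 := congrArg (fun q => Polynomial.coeff q m) h1
      simp only [Polynomial.coeff_zero] at h2
      rw [Polynomial.coeff_add, hneg, (comp_coeff hpd (-1) 0 (by norm_num)).2, hme.neg_one_pow, mul_one] at h2
      apply ha
      have h3 : (2 : ℂ) * a = 0 := by rw [two_mul]; exact h2
      exact (mul_eq_zero.1 h3).resolve_left two_ne_zero
  rw [Polynomial.eval_mul, Polynomial.eval_add, Polynomial.eval_comp, Polynomial.eval_neg, Polynomial.eval_X] at hc
  have hc1 : p.eval (-c) ≠ 0 := left_ne_zero_of_mul hc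
  have hc2 : p.eval c + p.eval (-c) ≠ 0 := right_ne_zero_of_mul hc
  -- the polynomial
  set G : ℂ[X] := C (p.eval (-c)) * (p * p.comp (C (-1) * X + C c)) +
    C (p.eval c) * (p.comp (C (-1) * X + C 0) * p.comp (C 1 * X + C (-c))) with hG
  have hG0 : G ≠ 0 := by
    intro h0
    have h1 := congrArg (fun q => Polynomial.coeff q (m + m)) h0
    simp only [Polynomial.coeff_zero] at h1
    have c1 := comp_coeff hpd (-1) c (by norm_num)
    have c2 := comp_coeff hpd (-1) 0 (by norm_num)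
    have c3 := comp_coeff hpd 1 (-c) one_ne_zero
    rw [hG, Polynomial.coeff_add, Polynomial.coeff_C_mul, Polynomial.coeff_C_mul,
      Polynomial.coeff_mul_add_eq_of_natDegree_le hpd.le c1.1, Polynomial.coeff_mul_add_eq_of_natDegree_le c2.1 c3.1, c1.2, c2.2, c3.2,
      hme.neg_one_pow, one_pow] at h1
    have h2 : a * a * (p.eval c + p.eval (-c)) = 0 := by linear_combination h1
    exact (mul_ne_zero (mul_ne_zero ha ha) hc2) h2
  have hp0 : p.comp (C (-1) * X + C c) ≠ 0 := by
    intro h0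
    have h1 := (comp_coeff hpd (-1) c (by norm_num)).2
    rw [h0, Polynomial.coeff_zero, hme.neg_one_pow, mul_one] at h1
    exact ha h1.symm
  have hPv : PP S v l := ⟨hlv, hvS⟩
  -- the pairs
  have hpair : ∀ d : ℂ, (p.comp (C (-1) * X + C c) * G).eval d ≠ 0 →
      PP S v (p.eval (-c) • (l ᵥ* E N (-d)) - p.eval (-d) • (l ᵥ* E N (-c))) := by
    intro d hd
    rw [Polynomial.eval_mul] at hd
    have hd1 := left_ne_zero_of_mul hd
    have hd2 := right_ne_zero_of_mul hd
    rw [hG] at hd2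
    simp only [Polynomial.eval_add, Polynomial.eval_mul, Polynomial.eval_comp, Polynomial.eval_C, Polynomial.eval_X,
      neg_mul, one_mul, add_zero] at hd1 hd2
    have e1 : -d + c = c - d := by ring
    have e2 : d + -c = d - c := by ring
    rw [e1] at hd1 hd2
    rw [e2] at hd2
    have hab := (conj_PP hN hE hPv c).conj (conj_PP hN hE hPv d) (p.eval (-d) / (p.eval (c - d) * p.eval (-c)))
    set t := p.eval (-d) / (p.eval (c - d) * p.eval (-c)) with ht
    have p1 : (l ᵥ* E N (-c)) ⬝ᵥ (E N d *ᵥ v) = p.eval (d - c) := by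
      have e3 : d - c = -c + d := by ring
      rw [hpe, ← dotProduct_mulVec, mulVec_mulVec, ← E_add hN, e3]
    have p2 : (l ᵥ* E N (-d)) ⬝ᵥ (E N c *ᵥ v) = p.eval (c - d) := by
      have e3 : c - d = -d + c := by ring
      rw [hpe, ← dotProduct_mulVec, mulVec_mulVec, ← E_add hN, e3]
    have p3 : ∀ x, (l ᵥ* E N (-x)) ⬝ᵥ v = p.eval (-x) := by
      intro x
      rw [hpe, dotProduct_mulVec]
    rw [p1, p2] at hab
    have h0 : (l ᵥ* E N (-d) - (t * p.eval (c - d)) • (l ᵥ* E N (-c))) ⬝ᵥ v = 0 := by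
      rw [sub_dotProduct, smul_dotProduct, p3, p3, smul_eq_mul, ht]
      field_simp
      ring
    have h1 : l ⬝ᵥ (E N d *ᵥ v + (t * p.eval (d - c)) • (E N c *ᵥ v)) ≠ 0 := by
      rw [dotProduct_add, dotProduct_smul, ← hpe, ← hpe, smul_eq_mul]
      intro h2
      apply hd2
      rw [ht] at h2
      field_simp at h2
      linear_combination h2
    have h2 := (hab.cross hcl hPv h0 h1).smul_right (p.eval (-c))
    rw [smul_sub, smul_smul] at h2
    have e3 : p.eval (-c) * (t * p.eval (c - d)) = p.eval (-d) := by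
      rw [ht]
      field_simp
    rw [e3] at h2
    exact h2
  -- the subspace of covectors
  intro μ hμ
  by_contra hcon
  set W : Submodule ℂ (Fin n → ℂ) :=
    { carrier := {x | PP S v x}
      add_mem' := fun hx hy => PP.add_right hx hy
      zero_mem' := ⟨zero_dotProduct v, fun s => by
        have : tr v 0 s = 1 := by
          unfold tr
          rw [vecMulVec_zero, smul_zero, add_zero]
        rw [this]
        exact one_mem _⟩
      smul_mem' := fun c x hx => PP.smul_right hx c } with hW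
  have hμW : μ ∉ W := hcon
  obtain ⟨f, hf1, hf2⟩ := Submodule.exists_le_ker_of_notMem hμW
  set x : Fin n → ℂ := fun i => f (Pi.single i 1) with hx
  have h3 : ∀ y : Fin n → ℂ, y ⬝ᵥ x = f y := by
    intro y
    rw [LinearMap.pi_apply_eq_sum_univ f y]
    unfold dotProduct
    refine Finset.sum_congr rfl fun i _ => ?_
    rw [smul_eq_mul]
    congr 1
    show f (Pi.single i 1) = _
    congr 1
    funext j
    rw [Pi.single_apply]
    simp [eq_comm]
  have hWx : ∀ y, PP S v y → y ⬝ᵥ x = 0 := by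
    intro y hy
    rw [h3]
    exact LinearMap.mem_ker.1 (hf2 hy)
  set κ : ℂ := ((l ᵥ* E N (-c)) ⬝ᵥ x) / p.eval (-c) with hκ
  have hl : l ᵥ* N ^ (n - 1) ≠ 0 := by
    intro h0
    apply htop
    rw [dotProduct_mulVec, h0, zero_dotProduct]
  have hz : x - κ • v = 0 := by
    refine coef_zero hN hl (mul_ne_zero hp0 hG0) fun d hd => ?_
    have h4 := hWx _ (hpair d hd)
    rw [sub_dotProduct, smul_dotProduct, smul_dotProduct, smul_eq_mul, smul_eq_mul] at h4
    rw [mulVec_sub, mulVec_smul, dotProduct_sub, dotProduct_smul, ← hpe, smul_eq_mul, dotProduct_mulVec]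
    have h5 : (l ᵥ* E N (-c)) ⬝ᵥ x = κ * p.eval (-c) := by rw [hκ]; field_simp
    rw [h5] at h4
    have h6 : p.eval (-c) * ((l ᵥ* E N (-d)) ⬝ᵥ x - κ * p.eval (-d)) = 0 := by linear_combination h4
    exact (mul_eq_zero.1 h6).resolve_left hc1
  have hxv : x = κ • v := sub_eq_zero.1 hz
  apply hf1
  rw [← h3, hxv, dotProduct_smul, hμ, smul_zero]

include hN hlv htop hodd hE hvS hcl in
theorem all_good (w : Fin n → ℂ) : Good S w := by
  have hgv := good_v hN hlv htop hodd hE hvS hcl
  have hv1 : (N ^ (n - 1)) *ᵥ v ≠ 0 := by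
    intro h
    apply htop
    rw [h, dotProduct_zero]
  set W : Submodule ℂ (Fin n → ℂ) :=
    { carrier := {x | Good S x}
      add_mem' := fun hx hy => Good.add hx hy
      zero_mem' := Good.zero
      smul_mem' := fun c x hx => Good.smul hx c } with hW
  by_contra hcon
  have hwW : w ∉ W := hcon
  obtain ⟨f, hf1, hf2⟩ := Submodule.exists_le_ker_of_notMem hwW
  have hf0 : f ≠ 0 := by
    intro h0
    apply hf1
    rw [h0]
    rfl
  apply pl_ne hN hv1 hf0
  refine Polynomial.funext fun c => ?_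
  rw [pl_eval, Polynomial.eval_zero]
  refine LinearMap.mem_ker.1 (hf2 ?_)
  show Good S (E N c *ᵥ v)
  intro m hm
  have h1 : (m ᵥ* E N c) ⬝ᵥ v = 0 := by rw [← dotProduct_mulVec]; exact hm
  have h2 := conj_PP hN hE (hgv _ h1) c
  rw [vecMul_vecMul, E_mul_neg hN, vecMul_one] at h2
  exact h2

include hN hlv htop hodd hE hvS hcl in
/-- **Density.** -/
theorem sl_all (g : Matrix (Fin n) (Fin n) ℂ) (hg : g.det = 1) : g ∈ S := by
  have hn : 2 ≤ n := by
    rcases hodd with ⟨k, hk⟩
    rcases Nat.eq_zero_or_pos k with h0 | h0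
    · exfalso
      apply htop
      have h1 : n - 1 = 0 := by omega
      rw [h1, pow_zero, one_mulVec]
      exact hlv
    · omega
  have : Nontrivial (Fin n) := Fin.nontrivial_iff_two_le.2 hn
  refine Pool.Agent.H463R3.PSLn.transvection_induction (F := ℂ) (ι := Fin n)
    (fun M => (M : Matrix (Fin n) (Fin n) ℂ) ∈ S) (fun i j h c => ?_) (fun A B hA hB => ?_) ⟨g, hg⟩
  · have h1 := (all_good hN hlv htop hodd hE hvS hcl (Pi.single i 1) (Pi.single j 1) ?_).2 c
    · have h2 : tr (Pi.single i 1) (Pi.single j 1) c = 1 + Matrix.single i j c := by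
        unfold tr
        congr 1
        ext a b
        rw [Matrix.smul_apply, vecMulVec_apply, Matrix.single_apply, Pi.single_apply, Pi.single_apply, smul_eq_mul]
        by_cases h3 : i = a
        · by_cases h4 : j = b
          · rw [if_pos h3.symm, if_pos h4.symm, if_pos ⟨h3, h4⟩, mul_one, mul_one]
          · rw [if_neg (Ne.symm h4), if_neg (fun h5 : i = a ∧ j = b => h4 h5.2), mul_zero, mul_zero]
        · rw [if_neg (Ne.symm h3), if_neg (fun h5 : i = a ∧ j = b => h3 h5.1), zero_mul, mul_zero]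
      show ((Matrix.SpecialLinearGroup.transvection h c : Matrix.SpecialLinearGroup (Fin n) ℂ) : Matrix (Fin n) (Fin n) ℂ) ∈ S
      rw [Matrix.SpecialLinearGroup.transvection_coe, ← h2]
      exact h1
    · rw [dotProduct_single_one, Pi.single_apply, if_neg h]
  · show ((A * B : Matrix.SpecialLinearGroup (Fin n) ℂ) : Matrix (Fin n) (Fin n) ℂ) ∈ S
    rw [Matrix.SpecialLinearGroup.coe_mul]
    exact mul_mem hA hB

end good

end main

end Pool.Agent.U980.HS
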